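import Pool.Agent.H72Acc.Final

/-!
# The ascending chain condition for the thresholds of level `N`
-/

set_option autoImplicit false

noncomputable section

namespace Pool.Agent.H72Acc

open IsLocalRing Pool.Agent.FolGap

variable {k K : Type} [Field k] [Field K] [Algebra k K] {d r : ℕ}

theorem exists_supp_of_ne [CharZero k] {q : SmoothPoint k K d} {f : K} (hf : f ∈ q.ring)
    (h0 : f ≠ 0) : ∃ β, Supp q β f := by
  obtain ⟨n, hn⟩ := exists_ord q (w := w1 d) (fun _ => le_rfl) hf h0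
  obtain ⟨β, hβ, -⟩ := exists_supp q (w := w1 d) (fun _ => le_rfl) n f hn
  exact ⟨β, hβ⟩

theorem newtonN_nonempty [CharZero k] {p q : SmoothPoint k K d} {e : Fin d →₀ ℕ}
    (hq : Over p q e) {D : Fin r → Derivation k K K} {h : K}
    (hη : ∀ f : Fin r → K, (∀ a, f a ∈ p.ring) → wedge D h f ∈ p.ring)
    (h0 : ∃ g, wedge D h g ≠ 0) {s : ℕ} {b : Fin s → ℝ} {f : Fin s → K}
    (hf : ∀ j, f j ∈ p.ring ∧ f j ≠ 0) : (newtonN q e (wedge D h) b f).Nonempty := by
  obtain ⟨φ, hφ⟩ : ∃ φ : Fin r → Fin d, (wedge D h fun a => zz q (φ a)) ≠ 0 := by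
    by_contra hcon
    push Not at hcon
    obtain ⟨g, hg⟩ := h0
    refine hg ?_
    rw [wedge_expand q D h g]
    exact Finset.sum_eq_zero fun φ _ => by rw [hcon φ, mul_zero]
  obtain ⟨v, hv⟩ := exists_val q (w := w1 d) (fun _ => le_rfl)
  have hmon0 : mon q (r • e) ≠ 0 := by
    intro h2
    have h3 := val_mon (val_zz_of_monomial (isMonomial_of_monVal (fun _ => le_rfl) hv)) (r • e)
    rw [h2, v.map_zero] at h3
    exact absurd h3 WithTop.top_ne_coe
  obtain ⟨α, hα⟩ := exists_supp_of_ne (pole_bound hq hη φ) (mul_ne_zero hmon0 hφ)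
  have hβ : ∀ j, ∃ β, Supp q β (f j) := fun j => exists_supp_of_ne (hq.1 (hf j).1) (hf j).2
  choose β hβ using hβ
  exact ⟨_, _, ⟨φ, α, β, hα, hβ, fun i => rfl⟩, fun i => rfl⟩

theorem acc (d r N : ℕ) (hd : 1 ≤ d) (Γ : Set ℝ) (h0 : ∀ γ ∈ Γ, 0 ≤ γ)
    (hΓ : ∀ g : ℕ → ℝ, StrictAnti g → ∃ n, g n ∉ Γ) :
    ∃ Γ' : Set ℝ, (∀ g : ℕ → ℝ, StrictMono g → ∃ n, g n ∉ Γ') ∧
      ∀ (k K : Type) [Field k] [CharZero k] [Field K] [Algebra k K] (I : Type)
        (p : I → SmoothPoint k K d) (D : Fin r → Derivation k K K) (h : I → K) (s : I → ℕ)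
        (b : (i : I) → Fin (s i) → ℝ) (f : (i : I) → Fin (s i) → K),
        (∀ i, (∃ g, wedge D (h i) g ≠ 0) ∧
          ∀ g : Fin r → K, (∀ a, g a ∈ (p i).ring) → wedge D (h i) g ∈ (p i).ring) →
        (∀ i j, b i j ∈ Γ ∧ f i j ∈ (p i).ring ∧ f i j ≠ 0) →
        ilctN N p (fun i => wedge D (h i)) b f ∈ Γ' ∧
        ((∀ i, LogMonomialLevel N (p i) (wedge D (h i)) (f i)) →
          ilctR p (fun i => wedge D (h i)) b f = ilctN N p (fun i => wedge D (h i)) b f) := by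
  have hpwo : (Γ ∪ {1}).IsPWO := by
    refine Set.IsPWO.union ?_ (Set.isPWO_singleton 1)
    have hwf : Γ.IsWF := by
      rw [Set.isWF_iff_no_descending_seq]
      intro f hf hn
      obtain ⟨n, hn'⟩ := hΓ f hf
      exact hn' (hn n)
    exact hwf.isPWO
  have hpos : ∀ x ∈ Γ ∪ {1}, (0 : ℝ) ≤ x := by
    rintro x (hx | hx)
    · exact h0 x hx
    · rw [Set.mem_singleton_iff.1 hx]
      exact zero_le_one
  have hCpwo : (AddSubmonoid.closure (Γ ∪ {1}) : Set ℝ).IsPWO :=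
    Set.IsPWO.addSubmonoid_closure hpos hpwo
  have hC0 : ∀ x ∈ AddSubmonoid.closure (Γ ∪ {1}), (0 : ℝ) ≤ x := by
    intro x hx
    induction hx using AddSubmonoid.closure_induction with
    | mem x hx => exact hpos x hx
    | zero => exact le_rfl
    | add x y _ _ hx hy => exact add_nonneg hx hy
  have hC1 : (1 : ℝ) ∈ AddSubmonoid.closure (Γ ∪ {1}) :=
    AddSubmonoid.subset_closure (Or.inr rfl)
  refine ⟨thrSet d (expSet (AddSubmonoid.closure (Γ ∪ {1})) N (r * N + 1)),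
    thrSet_acc (expSet_isPWO hCpwo _ _) (Nat.cast_nonneg _) (expSet_ge hC0 _ _), ?_⟩
  intro k K _ _ _ _ I p D h s b f hη hbf
  have hb : ∀ i j, b i j ∈ AddSubmonoid.closure (Γ ∪ {1}) := fun i j =>
    AddSubmonoid.subset_closure (Or.inl (hbf i j).1)
  constructor
  · refine ⟨{S | ∃ (i : I) (q : SmoothPoint k K d) (e : Fin d →₀ ℕ), Over (p i) q e ∧
      (∀ j, e j ≤ N) ∧ S = newtonN q e (wedge D (h i)) (b i) (f i)}, ?_, ?_⟩
    · rintro S ⟨i, q, e, hq, hN, rfl⟩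
      refine ⟨newtonN_nonempty hq (hη i).2 (hη i).1 fun j => (hbf i j).2, ?_⟩
      rintro x ⟨ν, hν, hx⟩ j
      refine ⟨e j + 1, by omega, by have := hN j; omega, ?_⟩
      have h1 := newton_mem (p := p i) hN hC1 (hb i) ν hν j
      have h2 : x j * ((e j + 1 : ℕ) : ℝ) = ν j := by
        rw [hx j]
        push_cast
        rw [div_mul_cancel₀]
        positivity
      rw [h2]
      exact h1
    · unfold ilctN
      congr 1
      ext t
      constructor
      · rintro ⟨ht0, ht1, ht⟩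
        refine ⟨ht0, ht1, ?_⟩
        rintro S ⟨i, q, e, hq, hN, rfl⟩
        exact (level_iff hd (hη i).2 (hη i).1 hC1 hC0 (hb i) (fun j => (hbf i j).2) ht0 ht1).1
          (ht i) q e hq hN
      · rintro ⟨ht0, ht1, ht⟩
        refine ⟨ht0, ht1, fun i => ?_⟩
        exact (level_iff hd (hη i).2 (hη i).1 hC1 hC0 (hb i) (fun j => (hbf i j).2) ht0 ht1).2
          fun q e hq hN => ht _ ⟨i, q, e, hq, hN, rfl⟩
  · intro hmon
    unfold ilctN ilctR
    congr 1
    ext t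
    constructor
    · rintro ⟨ht0, ht1, ht⟩
      exact ⟨ht0, ht1, fun i v hv _ => ht i v hv⟩
    · rintro ⟨ht0, ht1, ht⟩
      exact ⟨ht0, ht1, fun i v hv => lc_of_logMonomialLevel hd (hη i).2 (hη i).1 hC1 hC0 (hb i)
        (fun j => (hbf i j).2) ht0 ht1 (hmon i) (ht i) v hv⟩

end Pool.Agent.H72Acc
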