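import Mathlib

/-!
# The combinatorial part of the ascending chain condition

`duality`: if for all positive integral weights `w` some `ν` in `N` satisfies `⟨w, ν⟩ ≤ μ |w|`, then
for `c > μ` the convex hull of `N` contains a point all of whose coordinates are less than `c`
(Hahn-Banach, and an approximation of the functional by integral weights). `core`: with
Carathéodory's theorem and the well quasi-order of finite tuples of elements of a well ordered set.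
-/

set_option autoImplicit false

noncomputable section

namespace Pool.Agent.H72Acc

private theorem sum_mul_const_Comb {d : ℕ} (a : Fin d → ℝ) (x : ℝ) :
    ∑ i, a i * x = x * ∑ i, a i := by
  rw [← Finset.sum_mul, mul_comm]

theorem duality {d : ℕ} {N : Set (Fin d → ℝ)} (hne : N.Nonempty) {c₀ : ℝ} (hc₀ : 0 ≤ c₀)
    (h1 : ∀ ν ∈ N, ∀ i, -c₀ ≤ ν i) {μ c : ℝ} (hμ : 0 ≤ μ) (hc : μ < c)
    (h : ∀ w : Fin d → ℕ, (∀ i, 1 ≤ w i) →
      ∃ ν ∈ N, ∑ i, (w i : ℝ) * ν i ≤ μ * ∑ i, (w i : ℝ)) :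
    ∃ x ∈ convexHull ℝ N, ∀ i, x i < c := by
  by_contra hcon
  push Not at hcon
  have hs : Convex ℝ {x : Fin d → ℝ | ∀ i, x i < c} := by
    have : {x : Fin d → ℝ | ∀ i, x i < c} = Set.pi Set.univ fun _ => Set.Iio c := by
      ext x
      simp
    rw [this]
    exact convex_pi fun i _ => convex_Iio c
  have hso : IsOpen {x : Fin d → ℝ | ∀ i, x i < c} := by
    have : {x : Fin d → ℝ | ∀ i, x i < c} = Set.pi Set.univ fun _ => Set.Iio c := by
      ext x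
      simp
    rw [this]
    exact isOpen_set_pi Set.finite_univ fun i _ => isOpen_Iio
  have hdisj : Disjoint {x : Fin d → ℝ | ∀ i, x i < c} (convexHull ℝ N) := by
    rw [Set.disjoint_left]
    intro x hx hx'
    obtain ⟨i, hi⟩ := hcon x hx'
    exact absurd (hx i) (not_lt.2 hi)
  obtain ⟨f, u, hf1, hf2⟩ := geometric_hahn_banach_open hs hso (convex_convexHull ℝ N) hdisj
  obtain ⟨a, ha⟩ : ∃ a : Fin d → ℝ, a = fun i => f (Pi.single i 1) := ⟨_, rfl⟩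
  have hfa : ∀ x : Fin d → ℝ, f x = ∑ i, a i * x i := by
    intro x
    have hx : x = ∑ i, x i • (Pi.single i (1 : ℝ) : Fin d → ℝ) := by
      ext j
      rw [Finset.sum_apply]
      simp [Pi.single_apply]
    conv_lhs => rw [hx]
    rw [map_sum, ha]
    refine Finset.sum_congr rfl fun i _ => ?_
    rw [map_smul, smul_eq_mul, mul_comm]
  have ha0 : ∀ i, 0 ≤ a i := by
    intro i
    by_contra hneg
    push Not at hneg
    obtain ⟨n, hn⟩ := exists_nat_gt ((u - (c - 1) * ∑ i, a i) / (-a i))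
    rw [div_lt_iff₀ (by linarith)] at hn
    have h2 := hf1 (fun j => (c - 1) - if j = i then (n : ℝ) else 0) (by
      intro j
      show (c - 1) - (if j = i then (n : ℝ) else 0) < c
      split_ifs
      · have : (0 : ℝ) ≤ n := Nat.cast_nonneg n
        linarith
      · linarith)
    rw [hfa] at h2
    have h3 : ∑ j, a j * ((c - 1) - if j = i then (n : ℝ) else 0) =
        (c - 1) * (∑ j, a j) - a i * n := by
      simp only [mul_sub, Finset.sum_sub_distrib, mul_ite, mul_zero, Finset.sum_ite_eq',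
        Finset.mem_univ, if_true, sum_mul_const_Comb]
      simp
      ring
    rw [h3] at h2
    linarith
  have hsum0 : 0 ≤ ∑ i, a i := Finset.sum_nonneg fun i _ => ha0 i
  have hlt : ∀ δ : ℝ, 0 < δ → (c - δ) * ∑ i, a i < u := by
    intro δ hδ
    have h2 := hf1 (fun _ => c - δ) (by
      intro j
      show c - δ < c
      linarith)
    rwa [hfa, sum_mul_const_Comb] at h2
  have hu : c * ∑ i, a i ≤ u := by
    refine le_of_forall_pos_le_add fun ε hε => ?_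
    have h2 := hlt (ε / (∑ i, a i + 1)) (by positivity)
    have h3 : ε / (∑ i, a i + 1) * ∑ i, a i ≤ ε := by
      rw [div_mul_eq_mul_div, div_le_iff₀ (by linarith)]
      nlinarith
    nlinarith
  obtain ⟨ν₀, hν₀⟩ := hne
  have hpos : 0 < ∑ i, a i := by
    rcases hsum0.lt_or_eq with h2 | h2
    · exact h2
    · exfalso
      have h3 : ∀ i, a i = 0 := by
        intro i
        exact (Finset.sum_eq_zero_iff_of_nonneg fun i _ => ha0 i).1 h2.symm i (Finset.mem_univ i)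
      have h4 := hlt 1 one_pos
      have h5 := hf2 ν₀ (subset_convexHull ℝ N hν₀)
      rw [hfa] at h5
      simp only [h3, zero_mul, Finset.sum_const_zero, mul_zero] at h4 h5
      linarith
  obtain ⟨M, hM⟩ := exists_nat_gt ((c₀ + μ) * d / ((c - μ) * ∑ i, a i))
  have hcμ : 0 < (c - μ) * ∑ i, a i := mul_pos (by linarith) hpos
  rw [div_lt_iff₀ hcμ] at hM
  have hw1 : ∀ i, (M : ℝ) * a i ≤ ((⌊(M : ℝ) * a i⌋₊ + 1 : ℕ) : ℝ) := by
    intro i
    push_cast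
    exact (Nat.lt_floor_add_one _).le
  have hw2 : ∀ i, ((⌊(M : ℝ) * a i⌋₊ + 1 : ℕ) : ℝ) ≤ (M : ℝ) * a i + 1 := by
    intro i
    push_cast
    have := Nat.floor_le (mul_nonneg (Nat.cast_nonneg M) (ha0 i))
    linarith
  obtain ⟨ν, hν, hνw⟩ := h (fun i => ⌊(M : ℝ) * a i⌋₊ + 1) fun i => by omega
  have h5 := hf2 ν (subset_convexHull ℝ N hν)
  rw [hfa] at h5
  have h6 : (M : ℝ) * (∑ i, a i * ν i) - c₀ * d ≤
      ∑ i, ((⌊(M : ℝ) * a i⌋₊ + 1 : ℕ) : ℝ) * ν i := by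
    have h7 : (M : ℝ) * (∑ i, a i * ν i) - c₀ * d = ∑ i : Fin d, ((M : ℝ) * a i * ν i - c₀) := by
      rw [Finset.sum_sub_distrib, Finset.mul_sum, Finset.sum_const, Finset.card_univ,
        Fintype.card_fin, nsmul_eq_mul, mul_comm c₀]
      congr 1
      exact Finset.sum_congr rfl fun i _ => by ring
    rw [h7]
    refine Finset.sum_le_sum fun i _ => ?_
    have h8 := h1 ν hν i
    have h9 := hw1 i
    have h10 := hw2 i
    obtain ⟨e, he⟩ : ∃ e : ℝ, e = ((⌊(M : ℝ) * a i⌋₊ + 1 : ℕ) : ℝ) - (M : ℝ) * a i := ⟨_, rfl⟩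
    have he0 : 0 ≤ e := by linarith
    have he1 : e ≤ 1 := by linarith
    have h11 : ((⌊(M : ℝ) * a i⌋₊ + 1 : ℕ) : ℝ) = (M : ℝ) * a i + e := by linarith
    rw [h11]
    have h12 : e * (-c₀) ≤ e * ν i := mul_le_mul_of_nonneg_left h8 he0
    have h13 : e * c₀ ≤ 1 * c₀ := mul_le_mul_of_nonneg_right he1 hc₀
    nlinarith
  have h7 : ∑ i, ((⌊(M : ℝ) * a i⌋₊ + 1 : ℕ) : ℝ) ≤ (M : ℝ) * (∑ i, a i) + d := by
    have h8 : (M : ℝ) * (∑ i, a i) + d = ∑ i : Fin d, ((M : ℝ) * a i + 1) := by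
      rw [Finset.sum_add_distrib, Finset.mul_sum]
      simp
    rw [h8]
    exact Finset.sum_le_sum fun i _ => hw2 i
  have hM0 : (0 : ℝ) ≤ M := Nat.cast_nonneg M
  have h8 : (M : ℝ) * (c * ∑ i, a i) ≤ M * (∑ i, a i * ν i) :=
    mul_le_mul_of_nonneg_left (hu.trans h5) hM0
  have h9 : μ * ∑ i, ((⌊(M : ℝ) * a i⌋₊ + 1 : ℕ) : ℝ) ≤ μ * ((M : ℝ) * (∑ i, a i) + d) :=
    mul_le_mul_of_nonneg_left h7 hμ
  nlinarith

theorem cara {d : ℕ} {N : Set (Fin d → ℝ)} {x : Fin d → ℝ} (hx : x ∈ convexHull ℝ N) :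
    ∃ (z : Fin (d + 1) → Fin d → ℝ) (l : Fin (d + 1) → ℝ), (∀ j, z j ∈ N) ∧ (∀ j, 0 ≤ l j) ∧
      ∑ j, l j = 1 ∧ ∀ i, ∑ j, l j * z j i = x i := by
  classical
  obtain ⟨ι, _, z, l, hz, haff, hl, hl1, hlx⟩ := eq_pos_convex_span_of_mem_convexHull hx
  have hcard : Fintype.card ι ≤ d + 1 := by
    refine haff.card_le_finrank_succ.trans ?_
    have h1 : Module.finrank ℝ (vectorSpan ℝ (Set.range z)) ≤ Module.finrank ℝ (Fin d → ℝ) :=
      Submodule.finrank_le _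
    rw [Module.finrank_fin_fun] at h1
    omega
  obtain ⟨e⟩ : Nonempty (ι ↪ Fin (d + 1)) := by
    refine Function.Embedding.nonempty_of_card_le ?_
    rw [Fintype.card_fin]
    exact hcard
  have hι : Nonempty ι := by
    by_contra hemp
    rw [not_nonempty_iff] at hemp
    rw [Finset.univ_eq_empty, Finset.sum_empty] at hl1
    exact zero_ne_one hl1
  obtain ⟨i₀⟩ := hι
  refine ⟨Function.extend e z fun _ => z i₀, Function.extend e l 0, ?_, ?_, ?_, ?_⟩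
  · intro j
    by_cases hj : ∃ i, e i = j
    · obtain ⟨i, rfl⟩ := hj
      rw [e.injective.extend_apply]
      exact hz ⟨i, rfl⟩
    · rw [Function.extend_apply' _ _ _ hj]
      exact hz ⟨i₀, rfl⟩
  · intro j
    by_cases hj : ∃ i, e i = j
    · obtain ⟨i, rfl⟩ := hj
      rw [e.injective.extend_apply]
      exact (hl i).le
    · rw [Function.extend_apply' _ _ _ hj]
      exact le_rfl
  · rw [← hl1]
    refine (Fintype.sum_of_injective e e.injective _ _ ?_ ?_).symm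
    · intro j hj
      exact Function.extend_apply' _ _ _ hj
    · intro i
      rw [e.injective.extend_apply]
  · intro m
    have h1 : x m = ∑ i, l i * z i m := by
      rw [← hlx, Finset.sum_apply]
      rfl
    rw [h1]
    refine (Fintype.sum_of_injective e e.injective _ _ ?_ ?_).symm
    · intro j hj
      rw [Function.extend_apply' _ _ _ hj, Pi.zero_apply, zero_mul]
    · intro i
      rw [e.injective.extend_apply, e.injective.extend_apply]

theorem core {d : ℕ} {G : Set ℝ} (hG : G.IsPWO) {c₀ : ℝ} (hc₀ : 0 ≤ c₀)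
    (hG0 : ∀ x ∈ G, -c₀ ≤ x) (N : ℕ → Set (Fin d → ℝ)) (hNne : ∀ n, (N n).Nonempty)
    (hN : ∀ n, ∀ ν ∈ N n, ∀ i, ν i ∈ G) (μ : ℕ → ℝ) (hμ : StrictAnti μ)
    (hμ0 : ∀ n, 0 ≤ μ n)
    (P1 : ∀ n m, n < m → ∀ w : Fin d → ℕ, (∀ i, 1 ≤ w i) →
      ∃ ν ∈ N m, ∑ i, (w i : ℝ) * ν i ≤ μ n * ∑ i, (w i : ℝ))
    (w : ℕ → Fin d → ℕ)
    (P2 : ∀ n, ∀ ν ∈ N n, μ n * ∑ i, (w n i : ℝ) < ∑ i, (w n i : ℝ) * ν i) : False := by
  classical
  have hN1 : ∀ n, ∀ ν ∈ N n, ∀ i, -c₀ ≤ ν i := fun n ν hν i => hG0 _ (hN n ν hν i)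
  have key : ∀ m : ℕ, ∃ (z : Fin (d + 1) → Fin d → ℝ) (l : Fin (d + 1) → ℝ),
      (∀ j, z j ∈ N (2 * m + 2)) ∧ (∀ j, 0 ≤ l j) ∧ ∑ j, l j = 1 ∧
      ∀ i, ∑ j, l j * z j i < μ (2 * m) := by
    intro m
    obtain ⟨x, hx, hxc⟩ := duality (hNne (2 * m + 2)) hc₀ (hN1 _) (hμ0 (2 * m + 1))
      (hμ (by omega : 2 * m < 2 * m + 1)) (P1 (2 * m + 1) (2 * m + 2) (by omega))
    obtain ⟨z, l, h1, h2, h3, h4⟩ := cara hx
    exact ⟨z, l, h1, h2, h3, fun i => by rw [h4 i]; exact hxc i⟩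
  choose z l hz hl hl1 hzc using key
  have hwqo : WellQuasiOrderedLE G := ⟨hG⟩
  let F : ℕ → (Fin (d + 1) → Fin d → G) := fun m j i => ⟨z m j i, hN _ _ (hz m j) i⟩
  obtain ⟨n, m, hnm, hle⟩ := wellQuasiOrdered_le F
  have hle' : ∀ j i, z n j i ≤ z m j i := by
    intro j i
    exact hle j i
  -- the contradiction, with the weights `w (2 n + 2)`
  obtain ⟨ω, hω⟩ : ∃ ω : Fin d → ℝ, ω = fun i => (w (2 * n + 2) i : ℝ) := ⟨_, rfl⟩
  have hω0 : ∀ i, 0 ≤ ω i := by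
    intro i
    rw [hω]
    exact Nat.cast_nonneg _
  have h1 : ∀ j, μ (2 * n + 2) * ∑ i, ω i < ∑ i, ω i * z n j i := by
    intro j
    rw [hω]
    exact P2 (2 * n + 2) _ (hz n j)
  have h2 : ∀ j, μ (2 * n + 2) * ∑ i, ω i < ∑ i, ω i * z m j i := by
    intro j
    refine lt_of_lt_of_le (h1 j) (Finset.sum_le_sum fun i _ => ?_)
    exact mul_le_mul_of_nonneg_left (hle' j i) (hω0 i)
  have h3 : μ (2 * n + 2) * ∑ i, ω i < ∑ j, l m j * ∑ i, ω i * z m j i := by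
    have h4 : ∀ j, l m j * (μ (2 * n + 2) * ∑ i, ω i) ≤ l m j * ∑ i, ω i * z m j i := fun j =>
      mul_le_mul_of_nonneg_left (h2 j).le (hl m j)
    have h5 : ∃ j, 0 < l m j := by
      by_contra hcon
      push Not at hcon
      have h6 : ∑ j, l m j ≤ 0 := Finset.sum_nonpos fun j _ => hcon j
      rw [hl1 m] at h6
      linarith
    obtain ⟨j₀, hj₀⟩ := h5
    calc μ (2 * n + 2) * ∑ i, ω i = ∑ j, l m j * (μ (2 * n + 2) * ∑ i, ω i) := by
          rw [← Finset.sum_mul, hl1 m, one_mul]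
      _ < ∑ j, l m j * ∑ i, ω i * z m j i :=
          Finset.sum_lt_sum (fun j _ => h4 j)
            ⟨j₀, Finset.mem_univ _, mul_lt_mul_of_pos_left (h2 j₀) hj₀⟩
  have h4 : ∑ j, l m j * ∑ i, ω i * z m j i = ∑ i, ω i * ∑ j, l m j * z m j i := by
    simp only [Finset.mul_sum]
    rw [Finset.sum_comm]
    exact Finset.sum_congr rfl fun i _ => Finset.sum_congr rfl fun j _ => by ring
  have h5 : ∑ i, ω i * ∑ j, l m j * z m j i ≤ ∑ i, ω i * μ (2 * m) :=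
    Finset.sum_le_sum fun i _ => mul_le_mul_of_nonneg_left (hzc m i).le (hω0 i)
  have h6 : ∑ i, ω i * μ (2 * m) = μ (2 * m) * ∑ i, ω i := by
    rw [← Finset.sum_mul, mul_comm]
  have h7 : μ (2 * m) ≤ μ (2 * n + 2) := hμ.antitone (by omega)
  have h8 : μ (2 * m) * ∑ i, ω i ≤ μ (2 * n + 2) * ∑ i, ω i :=
    mul_le_mul_of_nonneg_right h7 (Finset.sum_nonneg fun i _ => hω0 i)
  linarith

/-- The set of the thresholds of all systems of inequalities `t ⟨w, N⟩ ≤ (1 - t) |w|`, where `N` runs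
through a family of nonempty sets of vectors with coordinates in `G`, and `w` through all
positive integral weights. -/
def thrSet (d : ℕ) (G : Set ℝ) : Set ℝ :=
  {T | ∃ J : Set (Set (Fin d → ℝ)), (∀ N ∈ J, N.Nonempty ∧ ∀ ν ∈ N, ∀ i, ν i ∈ G) ∧
    T = sSup {t : ℝ | 0 ≤ t ∧ t ≤ 1 ∧ ∀ N ∈ J, ∀ w : Fin d → ℕ, (∀ i, 1 ≤ w i) →
      ∃ ν ∈ N, t * ∑ i, (w i : ℝ) * ν i ≤ (1 - t) * ∑ i, (w i : ℝ)}}

theorem thrSet_acc {d : ℕ} {G : Set ℝ} (hG : G.IsPWO) {c₀ : ℝ} (hc₀ : 0 ≤ c₀)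
    (hG0 : ∀ x ∈ G, -c₀ ≤ x) (g : ℕ → ℝ) (hg : StrictMono g) : ∃ n, g n ∉ thrSet d G := by
  by_contra hcon
  push Not at hcon
  choose J hJ hT using hcon
  obtain ⟨S, hS⟩ : ∃ S : ℕ → Set ℝ, S = fun n =>
      {t : ℝ | 0 ≤ t ∧ t ≤ 1 ∧ ∀ N ∈ J n, ∀ w : Fin d → ℕ, (∀ i, 1 ≤ w i) →
        ∃ ν ∈ N, t * ∑ i, (w i : ℝ) * ν i ≤ (1 - t) * ∑ i, (w i : ℝ)} := ⟨_, rfl⟩
  have hT' : ∀ n, g n = sSup (S n) := by
    intro n
    rw [hT n, hS]
  have hmem : ∀ n t, t ∈ S n ↔ 0 ≤ t ∧ t ≤ 1 ∧ ∀ N ∈ J n, ∀ w : Fin d → ℕ, (∀ i, 1 ≤ w i) →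
        ∃ ν ∈ N, t * ∑ i, (w i : ℝ) * ν i ≤ (1 - t) * ∑ i, (w i : ℝ) := by
    intro n t
    rw [hS]
    rfl
  have hw0 : ∀ w : Fin d → ℕ, (0 : ℝ) ≤ ∑ i, (w i : ℝ) := fun w =>
    Finset.sum_nonneg fun i _ => Nat.cast_nonneg _
  have h0 : ∀ n, (0 : ℝ) ∈ S n := by
    intro n
    rw [hmem]
    refine ⟨le_rfl, zero_le_one, fun N hN w _ => ?_⟩
    obtain ⟨ν, hν⟩ := (hJ n N hN).1
    refine ⟨ν, hν, ?_⟩
    rw [zero_mul, sub_zero, one_mul]
    exact hw0 w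
  have hbdd : ∀ n, BddAbove (S n) := fun n => ⟨1, fun t ht => ((hmem n t).1 ht).2.1⟩
  have hdown : ∀ n s t, s ∈ S n → 0 ≤ t → t ≤ s → t ∈ S n := by
    intro n s t hs ht0 hts
    rw [hmem] at hs ⊢
    refine ⟨ht0, hts.trans hs.2.1, fun N hN w hw => ?_⟩
    obtain ⟨ν, hν, hle⟩ := hs.2.2 N hN w hw
    refine ⟨ν, hν, ?_⟩
    have h1 := hw0 w
    rcases le_or_gt (∑ i, (w i : ℝ) * ν i) 0 with h2 | h2
    · calc t * ∑ i, (w i : ℝ) * ν i ≤ 0 := mul_nonpos_of_nonneg_of_nonpos ht0 h2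
        _ ≤ (1 - t) * ∑ i, (w i : ℝ) := mul_nonneg (by linarith [hs.2.1]) h1
    · nlinarith
  have hg0 : ∀ n, 0 ≤ g n := by
    intro n
    rw [hT' n]
    exact le_csSup (hbdd n) (h0 n)
  have hg1 : ∀ n, g n ≤ 1 := by
    intro n
    rw [hT' n]
    exact csSup_le ⟨0, h0 n⟩ fun t ht => ((hmem n t).1 ht).2.1
  obtain ⟨t, ht⟩ : ∃ t : ℕ → ℝ, t = fun n => (g n + g (n + 1)) / 2 := ⟨_, rfl⟩
  have ht1 : ∀ n, g n < t n := by
    intro n
    rw [ht]
    have := hg (Nat.lt_succ_self n)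
    show g n < (g n + g (n + 1)) / 2
    linarith
  have ht2 : ∀ n, t n < g (n + 1) := by
    intro n
    rw [ht]
    have := hg (Nat.lt_succ_self n)
    show (g n + g (n + 1)) / 2 < g (n + 1)
    linarith
  have ht0 : ∀ n, 0 < t n := fun n => lt_of_le_of_lt (hg0 n) (ht1 n)
  have htlt : ∀ n, t n < 1 := fun n => lt_of_lt_of_le (ht2 n) (hg1 _)
  have htm : StrictMono t := strictMono_nat_of_lt_succ fun n => (ht2 n).trans (ht1 (n + 1))
  have hin : ∀ n m, n < m → t n ∈ S m := by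
    intro n m hnm
    have h1 : t n < sSup (S m) := by
      rw [← hT' m]
      exact lt_of_lt_of_le (ht2 n) (hg.monotone hnm)
    obtain ⟨s, hs, hts⟩ := exists_lt_of_lt_csSup ⟨0, h0 m⟩ h1
    exact hdown m s _ hs (ht0 n).le hts.le
  have hout : ∀ n, ∃ N ∈ J n, ∃ w : Fin d → ℕ, (∀ i, 1 ≤ w i) ∧
      ∀ ν ∈ N, (1 - t n) * ∑ i, (w i : ℝ) < t n * ∑ i, (w i : ℝ) * ν i := by
    intro n
    by_contra hcon
    push Not at hcon
    have h1 : t n ∈ S n := by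
      rw [hmem]
      exact ⟨(ht0 n).le, (htlt n).le, hcon⟩
    have h2 := le_csSup (hbdd n) h1
    rw [← hT' n] at h2
    exact absurd (ht1 n) (not_lt.2 h2)
  choose N hN w hw hP using hout
  refine core hG hc₀ hG0 N (fun n => (hJ n _ (hN n)).1) (fun n => (hJ n _ (hN n)).2)
    (fun n => (1 - t n) / t n) ?_ ?_ ?_ w ?_
  · intro a b hab
    have h1 := htm hab
    show (1 - t b) / t b < (1 - t a) / t a
    rw [div_lt_div_iff₀ (ht0 b) (ht0 a)]
    nlinarith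
  · intro n
    exact div_nonneg (by linarith [htlt n]) (ht0 n).le
  · intro n m hnm ω hω
    obtain ⟨ν, hν, hle⟩ := ((hmem m _).1 (hin n m hnm)).2.2 (N m) (hN m) ω hω
    refine ⟨ν, hν, ?_⟩
    rw [div_mul_eq_mul_div, le_div_iff₀ (ht0 n)]
    linarith
  · intro n ν hν
    rw [div_mul_eq_mul_div, div_lt_iff₀ (ht0 n)]
    have := hP n ν hν
    linarith

/-- The set of the coordinates of the normalized exponents. -/
def expSet (C : Set ℝ) (N c : ℕ) : Set ℝ :=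
  {x | ∃ A : ℕ, 1 ≤ A ∧ A ≤ N + 1 ∧ x * A + c ∈ C}

theorem expSet_isPWO {C : Set ℝ} (hC : C.IsPWO) (N c : ℕ) : (expSet C N c).IsPWO := by
  have h1 : expSet C N c ⊆ ⋃ A ∈ Finset.range (N + 2), (fun y : ℝ => (y - c) / A) '' C := by
    rintro x ⟨A, hA1, hA2, hx⟩
    rw [Set.mem_iUnion₂]
    refine ⟨A, Finset.mem_range.2 (by omega), x * A + c, hx, ?_⟩
    have hA : (A : ℝ) ≠ 0 := by
      have : A ≠ 0 := by omega
      exact_mod_cast this
    show (x * A + c - c) / A = x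
    rw [add_sub_cancel_right, mul_div_assoc, div_self hA, mul_one]
  refine Set.IsPWO.mono ?_ h1
  refine (Finset.isPWO_bUnion _).2 fun A _ => ?_
  refine hC.image_of_monotone fun x y hxy => ?_
  have hA : (0 : ℝ) ≤ A := Nat.cast_nonneg A
  exact div_le_div_of_nonneg_right (by linarith) hA

theorem expSet_ge {C : Set ℝ} (hC0 : ∀ x ∈ C, 0 ≤ x) (N c : ℕ) :
    ∀ x ∈ expSet C N c, -(c : ℝ) ≤ x := by
  rintro x ⟨A, hA1, -, hx⟩
  have h1 := hC0 _ hx
  have hA : (1 : ℝ) ≤ A := by exact_mod_cast hA1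
  by_contra hcon
  push Not at hcon
  have hc : (0 : ℝ) ≤ c := Nat.cast_nonneg c
  nlinarith

end Pool.Agent.H72Acc
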