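import Pool.Agent.FolGap.Defs
import Pool.Agent.FolGap.Filt

/-!
# Foliations of any rank on smooth varieties: interpolated log canonical thresholds (definitions)

A foliation `F` of rank `r` is spanned by `r` derivations `D_1, ..., D_r` of the function field. Near
a smooth closed point of `X` the function `h` is chosen such that the `r`-vector
`η = h D_1 ∧ ... ∧ D_r` generates `O(-(K_F + B₀))`, where `B₀` is an effective divisor with integral
coefficients; so `B₀` is the divisor of zeros of `η`, and if `B₀ = 0`, then `η` generates `O(-K_F)`.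
The `r`-vector is regarded as the function
`(f_1, ..., f_r) ↦ η(f_1, ..., f_r) = h det (D_a f_j)`.
-/

set_option autoImplicit false

noncomputable section

namespace Pool.Agent.H72Acc

open IsLocalRing Pool.Agent.FolGap

variable {k K : Type} [Field k] [Field K] [Algebra k K] {d r : ℕ}

/-- The `r`-vector `η = h D_1 ∧ ... ∧ D_r`: `η (f_1, ..., f_r) = h * det (D_a f_j)`. -/
def wedge (D : Fin r → Derivation k K K) (h : K) (f : Fin r → K) : K :=
  h * Matrix.det (Matrix.of fun a j : Fin r => D a (f j))

/-- `m` is the order of the `r`-vector `η` along the divisor `E`: the largest integer such that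
`η / π ^ m` maps `r`-tuples of elements of the valuation ring into the valuation ring (`π` a
uniformizer). So `η / π ^ m` generates `O(-K_(F_Y))` at the generic point of `E`, where `F_Y` is the
induced foliation. -/
def OrdR (v : AddValuation K (WithTop ℤ)) (η : (Fin r → K) → K) (m : ℤ) : Prop :=
  IsGreatest {m : ℤ | ∀ f : Fin r → K, (∀ j, 0 ≤ v (f j)) → (m : WithTop ℤ) ≤ v (η f)} m

/-- The divisor `E` is invariant: `η / π ^ m` maps an `r`-tuple of elements of the valuation ring
into the maximal ideal, as soon as one of them is in the maximal ideal. -/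
def InvR (v : AddValuation K (WithTop ℤ)) (η : (Fin r → K) → K) (m : ℤ) : Prop :=
  ∀ f : Fin r → K, (∀ j, 0 ≤ v (f j)) → (∃ j, 0 < v (f j)) → (m : WithTop ℤ) < v (η f)

open Classical in
/-- `ε(E)`, which is `0` if the divisor is invariant and `1` otherwise. -/
def epsR (v : AddValuation K (WithTop ℤ)) (η : (Fin r → K) → K) (m : ℤ) : ℤ :=
  if InvR v η m then 0 else 1

/-- The inequality of the definition of a log canonical structure for the divisor `E` with the
valuation `v`, for the adjoint foliated structure `(X, F, t B, t)`, where `η` generates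
`O(-(K_F + B₀))` and `B = B₀ + ∑ b_j div (f_j)`: the multiplicity of `D_Y` along `E` is
`t (m + ∑ b_j ord_E (f_j)) - (1 - t) a`; it has to be at most `t ε(E) + (1 - t)`. -/
def LcAt (p : SmoothPoint k K d) (η : (Fin r → K) → K) {s : ℕ} (b : Fin s → ℝ) (f : Fin s → K)
    (t : ℝ) (v : AddValuation K (WithTop ℤ)) : Prop :=
  ∀ m a : ℤ, OrdR v η m → Disc p v a →
    ∀ n : Fin s → ℤ, (∀ j, v (f j) = ((n j : ℤ) : WithTop ℤ)) →
      t * (m + ∑ j, b j * n j) - (1 - t) * a ≤ t * epsR v η m + (1 - t)

/-- The interpolated log canonical threshold of `(X, F, B)`, where `p i` are the closed points of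
the smooth variety `X`, `η i` generates `O(-(K_F + B₀))` at the point `p i`, and
`B = B₀ + ∑ b_j div (f_j)` near this point: the supremum of all `t` in `[0, 1]` for which
`(X, F, t B, t)` is log canonical. -/
def ilctR {I : Type} (p : I → SmoothPoint k K d) (η : I → (Fin r → K) → K) {s : I → ℕ}
    (b : (i : I) → Fin (s i) → ℝ) (f : (i : I) → Fin (s i) → K) : ℝ :=
  sSup {t : ℝ | 0 ≤ t ∧ t ≤ 1 ∧ ∀ i, ∀ v : AddValuation K (WithTop ℤ), IsDivisor (p i) v →
    LcAt (p i) (η i) (b i) (f i) t v}

/-- `g` is a unit of the local ring at `q` (with coordinates `z_i`). -/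
def IsUnitAt (q : SmoothPoint k K d) (u : K) : Prop := u ≠ 0 ∧ u ∈ q.ring ∧ u⁻¹ ∈ q.ring

/-- `q` is a closed point, over the point `p` of `X`, of a smooth variety `Y` with a birational
morphism to `X`, with coordinates `z_i` at `q` such that near `q` the relative canonical divisor
`K_(Y/X)`, the divisor of the Jacobian, is `∑ α_i div (z_i)`; so `α_i` is the discrepancy of the
divisor `z_i = 0`. -/
def Over (p q : SmoothPoint k K d) (α : Fin d →₀ ℕ) : Prop :=
  p.ring ≤ q.ring ∧ ∃ u : K, IsUnitAt q u ∧ jac q (fun j => (p.coord j : K)) = u * mon q α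

/-- `v` is the monomial valuation with the weights `w_i ≥ 0` in the coordinates at `q`: for `f` in
the local ring, `v f ≥ n` if and only if `f` is in the ideal generated by the monomials of weight at
least `n`. -/
def IsMonomial (q : SmoothPoint k K d) (w : Fin d → ℕ) (v : AddValuation K (WithTop ℤ)) : Prop :=
  ∀ f ∈ q.ring, ∀ n : ℕ, ((n : ℤ) : WithTop ℤ) ≤ v f ↔ f ∈ filt q w n

/-- `v` is a monomial valuation at a point `q` of a variety `Y` over `X` as in the definition
`Over`, where all `α_i` are at most `N`. -/
def OfLevel (N : ℕ) (p : SmoothPoint k K d) (v : AddValuation K (WithTop ℤ)) : Prop :=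
  ∃ (q : SmoothPoint k K d) (α : Fin d →₀ ℕ) (w : Fin d → ℕ),
    Over p q α ∧ (∀ i, α i ≤ N) ∧ IsMonomial q w v

/-- The threshold of level `N` of `(X, F, B)`: the supremum of all `t` in `[0, 1]` for which the
inequality of the definition of a log canonical structure holds for all divisors of level `N`. -/
def ilctN (N : ℕ) {I : Type} (p : I → SmoothPoint k K d) (η : I → (Fin r → K) → K) {s : I → ℕ}
    (b : (i : I) → Fin (s i) → ℝ) (f : (i : I) → Fin (s i) → K) : ℝ :=
  sSup {t : ℝ | 0 ≤ t ∧ t ≤ 1 ∧ ∀ i, ∀ v : AddValuation K (WithTop ℤ), IsDivisor (p i) v →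
    OfLevel N (p i) v → LcAt (p i) (η i) (b i) (f i) t v}

/-- The Laurent monomial with the exponents `γ_i` in the coordinates at `q`. -/
def lmon (q : SmoothPoint k K d) (γ : Fin d → ℤ) : K := ∏ i, (q.coord i : K) ^ γ i

/-- The coefficients of the `r`-vector `η` with respect to the logarithmic derivations
`z_i ∂ / ∂ z_i` in the coordinates at `q`. -/
def logCoeff (q : SmoothPoint k K d) (η : (Fin r → K) → K) (φ : Fin r → Fin d) : K :=
  η (fun a => (q.coord (φ a) : K)) / ∏ a, (q.coord (φ a) : K)

/-- `(F, B)` is log monomial at `q`: the fractional ideal generated by the logarithmic coefficients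
of `η` is generated by Laurent monomials, and the local equations `f_j` are units times
monomials. -/
def LogMonomial (q : SmoothPoint k K d) (η : (Fin r → K) → K) {s : ℕ} (f : Fin s → K) : Prop :=
  (∃ S : Set (Fin d → ℤ), Submodule.span q.ring (Set.range (logCoeff q η)) =
    Submodule.span q.ring (lmon q '' S)) ∧
  ∀ j, ∃ (u : K) (γ : Fin d → ℤ), IsUnitAt q u ∧ f j = u * lmon q γ

/-- `(F, B)` becomes log monomial at level `N` over the point `p`: for every divisor `E` over `X`
whose centre contains `p` there is a point `q`, as in the definition `Over`, with all `α_i ≤ N`, in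
the centre of `E`, at which `(F, B)` is log monomial. -/
def LogMonomialLevel (N : ℕ) (p : SmoothPoint k K d) (η : (Fin r → K) → K) {s : ℕ}
    (f : Fin s → K) : Prop :=
  ∀ v : AddValuation K (WithTop ℤ), IsDivisor p v →
    ∃ (q : SmoothPoint k K d) (α : Fin d →₀ ℕ), Over p q α ∧ (∀ i, α i ≤ N) ∧
      (∀ g ∈ q.ring, 0 ≤ v g) ∧ LogMonomial q η f

end Pool.Agent.H72Acc
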