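import Pool.Agent.H72Acc.Supp

/-!
# Derivations of the function field in coordinates

The coordinates at a smooth point are a transcendence basis of the function field, so a derivation of
the function field which vanishes on the coordinates is zero.
-/

set_option autoImplicit false

noncomputable section

namespace Pool.Agent.H72Acc

open IsLocalRing Pool.Agent.FolGap

variable {k K : Type} [Field k] [Field K] [Algebra k K] {d : ℕ}

theorem algInd_zz [CharZero k] (p : SmoothPoint k K d) : AlgebraicIndependent k (zz p) := by
  rw [algebraicIndependent_iff]
  intro P hP
  have key : ∀ n : ℕ, MvPolynomial.homogeneousComponent n P = 0 := by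
    intro n
    induction n using Nat.strong_induction_on with
    | _ n ih =>
      have hhom : (MvPolynomial.homogeneousComponent n P).IsWeightedHomogeneous (w1 d) n :=
        MvPolynomial.homogeneousComponent_isHomogeneous n P
      refine hom_eq_zero p (w := w1 d) (fun _ => le_rfl) hhom ?_
      have h1 : MvPolynomial.aeval (zz p) P =
          ∑ i ∈ Finset.range (P.totalDegree + 1),
            MvPolynomial.aeval (zz p) (MvPolynomial.homogeneousComponent i P) := by
        rw [← map_sum, MvPolynomial.sum_homogeneousComponent]
      have hin : ∀ i, n < i → MvPolynomial.aeval (zz p) (MvPolynomial.homogeneousComponent i P) ∈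
          filt p (w1 d) (n + 1) := by
        intro i hi
        have h2 : (MvPolynomial.homogeneousComponent i P).IsWeightedHomogeneous (w1 d) i :=
          MvPolynomial.homogeneousComponent_isHomogeneous i P
        exact filt_anti p _ hi (aeval_mem p h2)
      by_cases hn : n ∈ Finset.range (P.totalDegree + 1)
      · rw [hP, ← Finset.add_sum_erase _ _ hn] at h1
        have h2 : MvPolynomial.aeval (zz p) (MvPolynomial.homogeneousComponent n P) =
            -∑ i ∈ (Finset.range (P.totalDegree + 1)).erase n,
              MvPolynomial.aeval (zz p) (MvPolynomial.homogeneousComponent i P) := by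
          rw [eq_neg_iff_add_eq_zero]
          exact h1.symm
        rw [h2]
        refine neg_mem (sum_mem fun i hi => ?_)
        rcases lt_trichotomy i n with h3 | h3 | h3
        · rw [ih i h3, map_zero]
          exact zero_mem _
        · exact absurd h3 (Finset.ne_of_mem_erase hi)
        · exact hin i h3
      · rw [MvPolynomial.homogeneousComponent_eq_zero _ _ (by
          rw [Finset.mem_range] at hn
          omega), map_zero]
        exact zero_mem _
  rw [← MvPolynomial.sum_homogeneousComponent P]
  exact Finset.sum_eq_zero fun i _ => key i

theorem isAlgebraic_zz [CharZero k] (p : SmoothPoint k K d) :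
    Algebra.IsAlgebraic (Algebra.adjoin k (Set.range (zz p))) K := by
  have h1 : IsTranscendenceBasis k (zz p) := by
    refine (algInd_zz p).isTranscendenceBasis_of_trdeg_le_of_finite ?_
    rw [p.trdeg, Cardinal.mk_fin]
  exact h1.isAlgebraic

theorem der_zero [CharZero k] (p : SmoothPoint k K d) {D : Derivation k K K}
    (hz : ∀ i, D (zz p i) = 0) (f : K) : D f = 0 := by
  have hA : ∀ a ∈ Algebra.adjoin k (Set.range (zz p)), D a = 0 := by
    intro a ha
    induction ha using Algebra.adjoin_induction with
    | mem x hx =>
      obtain ⟨i, rfl⟩ := hx
      exact hz i
    | algebraMap c => exact D.map_algebraMap c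
    | add x y _ _ hx hy => rw [map_add, hx, hy, add_zero]
    | mul x y _ _ hx hy => rw [D.leibniz, hx, hy, smul_zero, smul_zero, add_zero]
  have hchain : ∀ P : Polynomial (Algebra.adjoin k (Set.range (zz p))),
      D (Polynomial.aeval f P) = Polynomial.aeval f (Polynomial.derivative P) * D f := by
    intro P
    induction P using Polynomial.induction_on' with
    | add P Q hP hQ => rw [map_add, map_add, hP, hQ, Polynomial.derivative_add, map_add, add_mul]
    | monomial n a =>
      rw [Polynomial.aeval_monomial, D.leibniz, D.leibniz_pow, Polynomial.derivative_monomial,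
        Polynomial.aeval_monomial]
      have h1 : D (algebraMap (Algebra.adjoin k (Set.range (zz p))) K a) = 0 := hA _ a.2
      rw [h1, smul_zero, add_zero, map_mul, map_natCast, smul_eq_mul, nsmul_eq_mul, smul_eq_mul]
      ring
  have key : ∀ n : ℕ, ∀ P : Polynomial (Algebra.adjoin k (Set.range (zz p))),
      P.natDegree ≤ n → P ≠ 0 → Polynomial.aeval f P = 0 → D f = 0 := by
    intro n
    induction n with
    | zero =>
      intro P hP h0 hPf
      exfalso
      rw [Polynomial.eq_C_of_natDegree_le_zero hP, Polynomial.aeval_C] at hPf
      have h1 : P.coeff 0 = 0 := by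
        have h2 : ((P.coeff 0 : Algebra.adjoin k (Set.range (zz p))) : K) = 0 := hPf
        exact Subtype.ext h2
      refine h0 ?_
      rw [Polynomial.eq_C_of_natDegree_le_zero hP, h1, map_zero]
    | succ n ih =>
      intro P hP h0 hPf
      have h1 := hchain P
      rw [hPf, map_zero] at h1
      rcases mul_eq_zero.1 h1.symm with h2 | h2
      · by_cases h3 : P.natDegree = 0
        · exact ih P (by omega) h0 hPf
        · refine ih (Polynomial.derivative P) ?_ ?_ h2
          · have := Polynomial.natDegree_derivative_lt h3
            omega
          · intro h4
            have : CharZero (Algebra.adjoin k (Set.range (zz p))) :=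
              charZero_of_injective_algebraMap
                (algebraMap k (Algebra.adjoin k (Set.range (zz p)))).injective
            exact h3 (Polynomial.derivative_eq_zero.1 h4)
      · exact h2
  obtain ⟨P, hP0, hP⟩ := (isAlgebraic_zz p).isAlgebraic f
  exact key _ P le_rfl hP0 hP

theorem sum_der_apply (c : Fin d → K) (D : Fin d → Derivation k K K) (f : K) :
    (∑ j, c j • D j) f = ∑ j, c j * D j f := by
  have h := map_sum (Derivation.coeFnAddMonoidHom (R := k) (A := K) (M := K))
    (fun j => c j • D j) Finset.univ
  have h2 := congrFun h f
  simp only [Finset.sum_apply] at h2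
  exact h2

/-- A derivation of the function field in coordinates. -/
theorem der_sum [CharZero k] (p : SmoothPoint k K d) (D : Derivation k K K) (f : K) :
    D f = ∑ l, D (zz p l) * p.der l f := by
  have h1 : (D - ∑ l, D (zz p l) • p.der l) f = 0 := by
    refine der_zero p (fun i => ?_) f
    rw [Derivation.sub_apply, sum_der_apply, Finset.sum_eq_single i]
    · have h2 : p.der i (zz p i) = 1 := by
        have := p.der_coord i i
        rwa [if_pos rfl] at this
      rw [h2, mul_one, sub_self]
    · intro l _ hl
      have h2 : p.der l (zz p i) = 0 := by
        have := p.der_coord l i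
        rwa [if_neg hl] at this
      rw [h2, mul_zero]
    · intro h
      exact absurd (Finset.mem_univ i) h
  rw [Derivation.sub_apply, sum_der_apply, sub_eq_zero] at h1
  exact h1

end Pool.Agent.H72Acc
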