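import Pool.Agent.H72Acc.Main

/-!
# The ascending chain condition
-/

set_option autoImplicit false

noncomputable section

namespace Pool.Agent.H72Acc

open IsLocalRing Pool.Agent.FolGap

variable {k K : Type} [Field k] [Field K] [Algebra k K] {d r : ℕ}

/-- The comparison for monomial valuations. -/
theorem le_of_monomial {q : SmoothPoint k K d} {e : Fin d →₀ ℕ}
    {D : Fin r → Derivation k K K} {h : K}
    (hpole : ∀ φ : Fin r → Fin d, mon q (r • e) * wedge D h (fun a => zz q (φ a)) ∈ q.ring)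
    {s : ℕ} {b : Fin s → ℝ} (hb : ∀ j, 0 ≤ b j) {f : Fin s → K} (hf : ∀ j, f j ∈ q.ring)
    {v : AddValuation K (WithTop ℤ)} (hs : ∃ f : K, v f = 1) {w : Fin d → ℕ}
    (hw : IsMonomial q w v) {m : ℤ} (hm : OrdR v (wedge D h) m) {n : Fin s → ℤ}
    (hn : ∀ j, v (f j) = ((n j : ℤ) : WithTop ℤ)) :
    ∀ ν ∈ newton q e (wedge D h) b f,
      ((m - epsR v (wedge D h) m : ℤ) : ℝ) + ∑ j, b j * n j ≤ ∑ i, (w i : ℝ) * ν i := by
  rintro ν ⟨φ, α, β, hα, hβ, hν⟩
  have hν' : ν = fun i => (α i : ℝ) - r * e i - cnt φ i + ∑ j, b j * (β j i : ℝ) := funext hν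
  rw [hν', pairing]
  have hval := val_zz_of_monomial hw
  have h1 := ge_of_ordR hs hm (fun a => zz q (φ a))
  have h2 := val_le_supp hw (hpole φ) hα
  rw [v.map_mul, val_mon hval] at h2
  have h3 := (add_le_add (le_refl ((((Finsupp.weight w (r • e) : ℕ) : ℤ)) : WithTop ℤ)) h1).trans h2
  simp only [hval] at h3
  rw [← coe_sum_int, ← WithTop.coe_add, ← WithTop.coe_add, WithTop.coe_le_coe] at h3
  have h4 : ∀ j, (n j : ℝ) ≤ (Finsupp.weight w (β j) : ℝ) := by
    intro j
    have h5 := val_le_supp hw (hf j) (hβ j)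
    rw [hn j, WithTop.coe_le_coe] at h5
    exact_mod_cast h5
  have h5 : ∑ j, b j * (n j : ℝ) ≤ ∑ j, b j * (Finsupp.weight w (β j) : ℝ) :=
    Finset.sum_le_sum fun j _ => mul_le_mul_of_nonneg_left (h4 j) (hb j)
  have h6 : r * ((Finsupp.weight w e : ℕ) : ℝ) + (∑ a, (w (φ a) : ℝ) +
      ((m - epsR v (wedge D h) m : ℤ) : ℝ)) ≤ (Finsupp.weight w α : ℝ) := by
    have := (Int.cast_le (R := ℝ)).2 h3
    rw [map_nsmul, nsmul_eq_mul] at this
    push_cast at this ⊢
    exact this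
  linarith

theorem val_zpow' {v : AddValuation K (WithTop ℤ)} {z : K} {n : ℤ}
    (hz : v z = ((n : ℤ) : WithTop ℤ)) (m : ℤ) : v (z ^ m) = ((m * n : ℤ) : WithTop ℤ) := by
  have hnat : ∀ j : ℕ, v (z ^ j) = ((j * n : ℤ) : WithTop ℤ) := by
    intro j
    rw [v.map_pow, hz, ← WithTop.coe_nsmul]
    congr 1
  rcases m with j | j
  · rw [Int.ofNat_eq_natCast, zpow_natCast]
    exact hnat j
  · rw [zpow_negSucc, v.map_inv, hnat]
    have h1 : (Int.negSucc j * n : ℤ) = -(((j + 1 : ℕ) : ℤ) * n) := by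
      rw [Int.negSucc_eq]
      push_cast
      ring
    rw [h1]
    rfl

theorem val_lmon {q : SmoothPoint k K d} {v : AddValuation K (WithTop ℤ)} {ω : Fin d → ℕ}
    (hω : ∀ i, v (zz q i) = ((ω i : ℤ) : WithTop ℤ)) (γ : Fin d → ℤ) :
    v (lmon q γ) = ((∑ i, γ i * ω i : ℤ) : WithTop ℤ) := by
  unfold lmon
  rw [val_prod, coe_sum_int]
  exact Finset.sum_congr rfl fun i _ => val_zpow' (hω i) _

theorem zz_ne {q : SmoothPoint k K d} {v : AddValuation K (WithTop ℤ)} {ω : Fin d → ℕ}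
    (hω : ∀ i, v (zz q i) = ((ω i : ℤ) : WithTop ℤ)) (i : Fin d) : zz q i ≠ 0 := by
  intro h
  have h1 := hω i
  rw [h, v.map_zero] at h1
  exact WithTop.top_ne_coe h1

/-- The value of the logarithmic coefficients. -/
theorem val_logCoeff {q : SmoothPoint k K d} {v : AddValuation K (WithTop ℤ)} {ω : Fin d → ℕ}
    (hω : ∀ i, v (zz q i) = ((ω i : ℤ) : WithTop ℤ)) (η : (Fin r → K) → K)
    (φ : Fin r → Fin d) :
    v (logCoeff q η φ) + ((∑ a, (ω (φ a) : ℤ) : ℤ) : WithTop ℤ) =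
      v (η fun a => zz q (φ a)) := by
  have h1 : (∏ a, zz q (φ a)) ≠ 0 := Finset.prod_ne_zero_iff.2 fun a _ => zz_ne hω _
  have h2 : v (∏ a, zz q (φ a)) = ((∑ a, (ω (φ a) : ℤ) : ℤ) : WithTop ℤ) := by
    rw [val_prod, coe_sum_int]
    exact Finset.sum_congr rfl fun a _ => hω _
  have h3 : logCoeff q η φ * ∏ a, zz q (φ a) = η fun a => zz q (φ a) := by
    unfold logCoeff
    exact div_mul_cancel₀ _ h1
  rw [← h2, ← v.map_mul, h3]

/-- The comparison for divisors over a log monomial point. -/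
theorem le_of_logMonomial [CharZero k] {q : SmoothPoint k K d} {e : Fin d →₀ ℕ}
    {D : Fin r → Derivation k K K} {h : K}
    (hpole : ∀ φ : Fin r → Fin d, mon q (r • e) * wedge D h (fun a => zz q (φ a)) ∈ q.ring)
    {s : ℕ} {b : Fin s → ℝ} (hb : ∀ j, 0 ≤ b j) {f : Fin s → K} (hf : ∀ j, f j ∈ q.ring)
    (hmon : LogMonomial q (wedge D h) f)
    {v : AddValuation K (WithTop ℤ)} (hs : ∃ f : K, v f = 1) (hvq : ∀ g ∈ q.ring, 0 ≤ v g)
    {ω : Fin d → ℕ} (hω : ∀ i, v (zz q i) = ((ω i : ℤ) : WithTop ℤ))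
    {m : ℤ} (hm : OrdR v (wedge D h) m) {n : Fin s → ℤ}
    (hn : ∀ j, v (f j) = ((n j : ℤ) : WithTop ℤ)) :
    ∀ ν ∈ newton q e (wedge D h) b f,
      ((m - epsR v (wedge D h) m : ℤ) : ℝ) + ∑ j, b j * n j ≤ ∑ i, (ω i : ℝ) * ν i := by
  obtain ⟨⟨S, hS⟩, hmf⟩ := hmon
  -- (a) the lower bound for the values of the monomials in `S`
  have hSa : ∀ γ ∈ S, m - epsR v (wedge D h) m ≤ ∑ i, γ i * ω i := by
    intro γ hγ
    have h1 : ∀ x ∈ Submodule.span q.ring (Set.range (logCoeff q (wedge D h))),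
        ((m - epsR v (wedge D h) m : ℤ) : WithTop ℤ) ≤ v x := by
      intro x hx
      induction hx using Submodule.span_induction with
      | mem x hx =>
        obtain ⟨φ, rfl⟩ := hx
        have h2 := ge_of_ordR hs hm (fun a => zz q (φ a))
        simp only [hω] at h2
        rw [← coe_sum_int, ← val_logCoeff hω (wedge D h) φ] at h2
        rcases eq_or_ne (v (logCoeff q (wedge D h) φ)) ⊤ with h3 | h3
        · rw [h3]
          exact le_top
        · obtain ⟨y, hy⟩ := WithTop.ne_top_iff_exists.1 h3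
          rw [← hy] at h2 ⊢
          rw [← WithTop.coe_add, ← WithTop.coe_add, WithTop.coe_le_coe] at h2
          rw [WithTop.coe_le_coe]
          omega
      | zero =>
        rw [v.map_zero]
        exact le_top
      | add x y _ _ hx hy => exact v.map_le_add hx hy
      | smul a x _ hx =>
        rw [Subalgebra.smul_def, smul_eq_mul, v.map_mul]
        exact hx.trans (le_add_of_nonneg_left (hvq a a.2))
    have h2 := h1 (lmon q γ) (by
      rw [hS]
      exact Submodule.subset_span ⟨γ, hγ, rfl⟩)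
    rw [val_lmon hω, WithTop.coe_le_coe] at h2
    exact h2
  -- (b) the upper bound
  have hSb : ∀ (φ : Fin r → Fin d) (α : Fin d →₀ ℕ),
      Supp q α (mon q (r • e) * wedge D h (fun a => zz q (φ a))) →
      ∃ γ ∈ S, ∑ i, γ i * ω i ≤ ((Finsupp.weight ω α : ℕ) : ℤ) -
        r * ((Finsupp.weight ω e : ℕ) : ℤ) - ∑ a, (ω (φ a) : ℤ) := by
    intro φ α hα
    by_contra hcon
    push Not at hcon
    obtain ⟨X, hX⟩ : ∃ X : ℤ, X = ((Finsupp.weight ω α : ℕ) : ℤ) -
        r * ((Finsupp.weight ω e : ℕ) : ℤ) - ∑ a, (ω (φ a) : ℤ) := ⟨_, rfl⟩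
    rw [← hX] at hcon
    have h1 : ∀ x ∈ Submodule.span q.ring (lmon q '' S), ∃ c : ℤ, ∀ (M : ℕ)
        (v' : AddValuation K (WithTop ℤ)), MonVal q (fun i => M * ω i + 1) v' →
          ((M * (X + 1) + c : ℤ) : WithTop ℤ) ≤ v' x := by
      intro x hx
      induction hx using Submodule.span_induction with
      | mem x hx =>
        obtain ⟨γ, hγ, rfl⟩ := hx
        refine ⟨∑ i, γ i, fun M v' hv' => ?_⟩
        have hw : ∀ i, 1 ≤ M * ω i + 1 := fun i => by omega
        rw [val_lmon (val_zz_of_monomial (isMonomial_of_monVal hw hv')), WithTop.coe_le_coe]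
        have h2 : ∑ i, γ i * ((M * ω i + 1 : ℕ) : ℤ) = M * ∑ i, γ i * ω i + ∑ i, γ i := by
          rw [Finset.mul_sum, ← Finset.sum_add_distrib]
          refine Finset.sum_congr rfl fun i _ => ?_
          push_cast
          ring
        rw [h2]
        have h3 := hcon γ hγ
        have h4 : (M : ℤ) * (X + 1) ≤ M * ∑ i, γ i * ω i :=
          mul_le_mul_of_nonneg_left (by omega) (Int.natCast_nonneg M)
        omega
      | zero => exact ⟨0, fun M v' _ => by rw [v'.map_zero]; exact le_top⟩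
      | add x y _ _ hx hy =>
        obtain ⟨c, hc⟩ := hx
        obtain ⟨c', hc'⟩ := hy
        refine ⟨min c c', fun M v' hv' => v'.map_le_add ?_ ?_⟩
        · refine le_trans (WithTop.coe_le_coe.2 ?_) (hc M v' hv')
          have := min_le_left c c'
          omega
        · refine le_trans (WithTop.coe_le_coe.2 ?_) (hc' M v' hv')
          have := min_le_right c c'
          omega
      | smul a x _ hx =>
        obtain ⟨c, hc⟩ := hx
        refine ⟨c, fun M v' hv' => ?_⟩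
        have hw : ∀ i, 1 ≤ M * ω i + 1 := fun i => by omega
        rw [Subalgebra.smul_def, smul_eq_mul, v'.map_mul]
        exact (hc M v' hv').trans (le_add_of_nonneg_left (hv'.nonneg hw a.2))
    obtain ⟨c, hc⟩ := h1 (logCoeff q (wedge D h) φ) (by
      rw [← hS]
      exact Submodule.subset_span ⟨φ, rfl⟩)
    -- the value of the logarithmic coefficient for the weights `M ω + 1`
    have h2 : ∀ M : ℕ, (M : ℤ) * (X + 1) + c ≤ M * X +
        (∑ i, (α i : ℤ) - r * ∑ i, (e i : ℤ) - r) := by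
      intro M
      have hw : ∀ i, 1 ≤ M * ω i + 1 := fun i => by omega
      obtain ⟨v', hv'⟩ := exists_val q hw
      have hval := val_zz_of_monomial (isMonomial_of_monVal hw hv')
      have h3 := hc M v' hv'
      have h4 := val_le_supp (isMonomial_of_monVal hw hv') (hpole φ) hα
      rw [v'.map_mul, val_mon hval, ← val_logCoeff hval (wedge D h) φ] at h4
      have h5 : v' (logCoeff q (wedge D h) φ) ≠ ⊤ := by
        rw [v'.ne_top_iff]
        intro h6
        have h7 := val_logCoeff hval (wedge D h) φ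
        rw [h6, v'.map_zero, top_add] at h7
        exact (right_ne_zero_of_mul hα.ne_zero) ((v'.top_iff).1 h7.symm)
      obtain ⟨y, hy⟩ := WithTop.ne_top_iff_exists.1 h5
      rw [← hy] at h3 h4
      rw [WithTop.coe_le_coe] at h3
      rw [← WithTop.coe_add, ← WithTop.coe_add, WithTop.coe_le_coe, map_nsmul] at h4
      have hlin : ∀ δ : Fin d →₀ ℕ, ((Finsupp.weight (fun i => M * ω i + 1) δ : ℕ) : ℤ) =
          M * ((Finsupp.weight ω δ : ℕ) : ℤ) + ∑ i, (δ i : ℤ) := by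
        intro δ
        rw [Finsupp.weight_eq_sum, Finsupp.weight_eq_sum]
        push_cast
        rw [Finset.mul_sum, ← Finset.sum_add_distrib]
        refine Finset.sum_congr rfl fun i _ => ?_
        simp only [smul_eq_mul]
        push_cast
        ring
      have hlin2 : ∑ a, ((M * ω (φ a) + 1 : ℕ) : ℤ) = M * ∑ a, (ω (φ a) : ℤ) + r := by
        push_cast
        rw [Finset.sum_add_distrib, Finset.mul_sum]
        simp
      rw [nsmul_eq_mul] at h4
      push_cast at h4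
      have h6 := hlin α
      have h7 := hlin e
      push_cast at hlin2
      rw [hlin2, h6, h7] at h4
      rw [hX] at h3 ⊢
      linarith
    obtain ⟨M, hM⟩ := exists_nat_gt ((∑ i, (α i : ℤ) - r * ∑ i, (e i : ℤ) - r - c).toNat)
    have h3 := h2 M
    have h4 := Int.self_le_toNat (∑ i, (α i : ℤ) - r * ∑ i, (e i : ℤ) - r - c)
    have h5 : ((∑ i, (α i : ℤ) - r * ∑ i, (e i : ℤ) - r - c).toNat : ℤ) < M := by
      exact_mod_cast hM
    linarith
  -- the functions
  have hfn : ∀ j (β : Fin d →₀ ℕ), Supp q β (f j) → (n j : ℝ) ≤ (Finsupp.weight ω β : ℝ) := by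
    intro j β hβ
    obtain ⟨u, γ, hu, hfu⟩ := hmf j
    have h1 : n j = ∑ i, γ i * ω i := by
      have h2 := hn j
      rw [hfu, v.map_mul, val_isUnitAt hvq hu, zero_add, val_lmon hω, WithTop.coe_inj] at h2
      exact h2.symm
    have h2 : ∀ w : Fin d → ℕ, (∀ i, 1 ≤ w i) →
        ∑ i, γ i * (w i : ℤ) ≤ ((Finsupp.weight w β : ℕ) : ℤ) := by
      intro w hw
      obtain ⟨v', hv'⟩ := exists_val q hw
      have hval := val_zz_of_monomial (isMonomial_of_monVal hw hv')
      have h3 := val_le_supp (isMonomial_of_monVal hw hv') (hf j) hβ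
      rw [hfu, v'.map_mul, val_isUnitAt (fun f hf => hv'.nonneg hw hf) hu, zero_add,
        val_lmon hval, WithTop.coe_le_coe] at h3
      exact h3
    have h3 : (∑ i, (γ i : ℝ) * (ω i : ℝ)) ≤ ((Finsupp.weight ω β : ℕ) : ℝ) := by
      refine limit_le (c := ∑ i, (β i : ℝ) - ∑ i, (γ i : ℝ)) fun M => ?_
      have h4 := h2 (fun i => M * ω i + 1) fun i => by omega
      have h5 := (Int.cast_le (R := ℝ)).2 h4
      push_cast at h5
      rw [weight_real] at h5 ⊢
      have h6 : ∑ i, (γ i : ℝ) * ((M : ℝ) * ω i + 1) =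
          M * ∑ i, (γ i : ℝ) * (ω i : ℝ) + ∑ i, (γ i : ℝ) := by
        rw [Finset.mul_sum, ← Finset.sum_add_distrib]
        exact Finset.sum_congr rfl fun i _ => by ring
      have h7 : ∑ i, ((M * ω i + 1 : ℕ) : ℝ) * (β i : ℝ) =
          M * ∑ i, (ω i : ℝ) * (β i : ℝ) + ∑ i, (β i : ℝ) := by
        rw [Finset.mul_sum, ← Finset.sum_add_distrib]
        refine Finset.sum_congr rfl fun i _ => ?_
        push_cast
        ring
      rw [h6, h7] at h5
      linarith
    rw [h1]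
    push_cast
    exact h3
  rintro ν ⟨φ, α, β, hα, hβ, hν⟩
  have hν' : ν = fun i => (α i : ℝ) - r * e i - cnt φ i + ∑ j, b j * (β j i : ℝ) := funext hν
  rw [hν', pairing]
  obtain ⟨γ, hγ, hγle⟩ := hSb φ α hα
  have h1 := (hSa γ hγ).trans hγle
  have h2 := (Int.cast_le (R := ℝ)).2 h1
  push_cast at h2
  have h5 : ∑ j, b j * (n j : ℝ) ≤ ∑ j, b j * (Finsupp.weight ω (β j) : ℝ) :=
    Finset.sum_le_sum fun j _ => mul_le_mul_of_nonneg_left (hfn j _ (hβ j)) (hb j)
  push_cast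
  linarith

/-- The normalized Newton set. -/
def newtonN (q : SmoothPoint k K d) (e : Fin d →₀ ℕ) (η : (Fin r → K) → K) {s : ℕ}
    (b : Fin s → ℝ) (f : Fin s → K) : Set (Fin d → ℝ) :=
  {x | ∃ ν ∈ newton q e η b f, ∀ i, x i = ν i / (e i + 1)}

/-- The systems of inequalities for the Newton set and for the normalized Newton set. -/
theorem system_iff {q : SmoothPoint k K d} {e : Fin d →₀ ℕ} {η : (Fin r → K) → K} {s : ℕ}
    {b : Fin s → ℝ} {f : Fin s → K} {t : ℝ} :
    (∀ w : Fin d → ℕ, (∀ i, 1 ≤ w i) → ∃ ν ∈ newton q e η b f,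
      t * ∑ i, (w i : ℝ) * ν i ≤ (1 - t) * ∑ i, (w i : ℝ) * (e i + 1)) ↔
    (∀ w : Fin d → ℕ, (∀ i, 1 ≤ w i) → ∃ x ∈ newtonN q e η b f,
      t * ∑ i, (w i : ℝ) * x i ≤ (1 - t) * ∑ i, (w i : ℝ)) := by
  have he : ∀ i, ((e i : ℝ) + 1) ≠ 0 := fun i => by positivity
  constructor
  · intro h w hw
    obtain ⟨L, hL⟩ : ∃ L : ℕ, L = ∏ i, (e i + 1) := ⟨_, rfl⟩
    have hdvd : ∀ i, ∃ l, L = (e i + 1) * l := by
      intro i
      rw [hL]
      exact Finset.dvd_prod_of_mem _ (Finset.mem_univ i)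
    choose l hl using hdvd
    have hL0 : 0 < L := by
      rw [hL]
      exact Finset.prod_pos fun i _ => Nat.succ_pos _
    have hl0 : ∀ i, 1 ≤ l i := by
      intro i
      have h1 := hl i
      rcases Nat.eq_zero_or_pos (l i) with h2 | h2
      · rw [h2, mul_zero] at h1
        omega
      · exact h2
    have hlr : ∀ i, (l i : ℝ) * ((e i : ℝ) + 1) = L := by
      intro i
      rw [hl i]
      push_cast
      ring
    obtain ⟨ν, hν, hle⟩ := h (fun i => w i * l i) fun i => Nat.mul_pos (hw i) (hl0 i)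
    refine ⟨fun i => ν i / (e i + 1), ⟨ν, hν, fun i => rfl⟩, ?_⟩
    have h1 : ∑ i, ((w i * l i : ℕ) : ℝ) * ν i =
        L * ∑ i, (w i : ℝ) * (ν i / ((e i : ℝ) + 1)) := by
      rw [Finset.mul_sum]
      refine Finset.sum_congr rfl fun i _ => ?_
      rw [← hlr i]
      push_cast
      field_simp [he i]
    have h2 : ∑ i, ((w i * l i : ℕ) : ℝ) * ((e i : ℝ) + 1) = L * ∑ i, (w i : ℝ) := by
      rw [Finset.mul_sum]
      refine Finset.sum_congr rfl fun i _ => ?_
      rw [← hlr i]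
      push_cast
      ring
    rw [h1, h2] at hle
    have h3 : (0 : ℝ) < L := by exact_mod_cast hL0
    refine le_of_mul_le_mul_left ?_ h3
    linarith
  · intro h w hw
    obtain ⟨x, ⟨ν, hν, hx⟩, hle⟩ := h (fun i => w i * (e i + 1)) fun i =>
      Nat.mul_pos (hw i) (Nat.succ_pos _)
    refine ⟨ν, hν, ?_⟩
    have h1 : ∑ i, ((w i * (e i + 1) : ℕ) : ℝ) * x i = ∑ i, (w i : ℝ) * ν i := by
      refine Finset.sum_congr rfl fun i _ => ?_
      rw [hx i]
      push_cast
      field_simp [he i]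
    have h2 : ∑ i, ((w i * (e i + 1) : ℕ) : ℝ) = ∑ i, (w i : ℝ) * (e i + 1) := by
      refine Finset.sum_congr rfl fun i _ => ?_
      push_cast
      ring
    rw [h1, h2] at hle
    exact hle

/-- The inequalities for the divisors of level `N` are equivalent to the systems of inequalities. -/
theorem level_iff [CharZero k] (hd : 1 ≤ d) {N : ℕ} {p : SmoothPoint k K d}
    {D : Fin r → Derivation k K K} {h : K}
    (hη : ∀ f : Fin r → K, (∀ a, f a ∈ p.ring) → wedge D h f ∈ p.ring)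
    (h0 : ∃ g, wedge D h g ≠ 0) {C : AddSubmonoid ℝ} (hC1 : (1 : ℝ) ∈ C)
    (hC0 : ∀ x ∈ C, 0 ≤ x) {s : ℕ} {b : Fin s → ℝ} (hb : ∀ j, b j ∈ C) {f : Fin s → K}
    (hf : ∀ j, f j ∈ p.ring ∧ f j ≠ 0) {t : ℝ} (ht0 : 0 ≤ t) (ht1 : t ≤ 1) :
    (∀ v : AddValuation K (WithTop ℤ), IsDivisor p v → OfLevel N p v →
      LcAt p (wedge D h) b f t v) ↔
    ∀ (q : SmoothPoint k K d) (e : Fin d →₀ ℕ), Over p q e → (∀ i, e i ≤ N) →
      ∀ w : Fin d → ℕ, (∀ i, 1 ≤ w i) → ∃ x ∈ newtonN q e (wedge D h) b f,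
        t * ∑ i, (w i : ℝ) * x i ≤ (1 - t) * ∑ i, (w i : ℝ) := by
  constructor
  · intro hlc q e hq hN
    refine system_iff.1 fun w hw => ?_
    exact system_of_lc hd hq hη h0 hf ht0 ht1
      (fun v hv ⟨w, hw⟩ => hlc v hv ⟨q, e, w, hq, hN, hw⟩) w hw
  · rintro hsys v hv ⟨q, e, w, hq, hN, hw⟩
    have hvq : ∀ g ∈ q.ring, 0 ≤ v g := by
      intro g hg
      have h1 := (hw g hg 0).2 (mem_filt_zero w hg)
      simpa using h1
    refine lc_of_system hq ht0 ht1 hv hvq (val_zz_of_monomial hw) (c := ((r * N + 1 : ℕ) : ℝ))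
      (fun ν hν i => ?_) (system_iff.2 (hsys q e hq hN)) ?_
    · have := hC0 _ (newton_mem (p := p) hN hC1 hb ν hν i)
      linarith
    · intro m hm n hn
      exact le_of_monomial (pole_bound hq hη) (fun j => hC0 _ (hb j)) (fun j => hq.1 (hf j).1)
        hv.surj hw hm hn

/-- At log monomial level `N`, the inequalities for all divisors follow from those for the divisors of
level `N`. -/
theorem lc_of_logMonomialLevel [CharZero k] (hd : 1 ≤ d) {N : ℕ} {p : SmoothPoint k K d}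
    {D : Fin r → Derivation k K K} {h : K}
    (hη : ∀ f : Fin r → K, (∀ a, f a ∈ p.ring) → wedge D h f ∈ p.ring)
    (h0 : ∃ g, wedge D h g ≠ 0) {C : AddSubmonoid ℝ} (hC1 : (1 : ℝ) ∈ C)
    (hC0 : ∀ x ∈ C, 0 ≤ x) {s : ℕ} {b : Fin s → ℝ} (hb : ∀ j, b j ∈ C) {f : Fin s → K}
    (hf : ∀ j, f j ∈ p.ring ∧ f j ≠ 0) {t : ℝ} (ht0 : 0 ≤ t) (ht1 : t ≤ 1)
    (hmon : LogMonomialLevel N p (wedge D h) f)
    (hlc : ∀ v : AddValuation K (WithTop ℤ), IsDivisor p v → OfLevel N p v →
      LcAt p (wedge D h) b f t v) (v : AddValuation K (WithTop ℤ)) (hv : IsDivisor p v) :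
    LcAt p (wedge D h) b f t v := by
  obtain ⟨q, e, hq, hN, hvq, hmq⟩ := hmon v hv
  have hω : ∃ ω : Fin d → ℕ, ∀ i, v (zz q i) = ((ω i : ℤ) : WithTop ℤ) := by
    obtain ⟨x, hx⟩ := exists_int_val q v
    have h1 : ∀ i, 0 ≤ x i := by
      intro i
      have h2 := hvq (zz q i) (q.coord i).2
      rw [show v (zz q i) = ((x i : ℤ) : WithTop ℤ) from hx i] at h2
      exact WithTop.coe_le_coe.1 h2
    refine ⟨fun i => (x i).toNat, fun i => ?_⟩
    rw [show v (zz q i) = ((x i : ℤ) : WithTop ℤ) from hx i, Int.toNat_of_nonneg (h1 i)]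
  obtain ⟨ω, hω⟩ := hω
  refine lc_of_system hq ht0 ht1 hv hvq hω (c := ((r * N + 1 : ℕ) : ℝ))
    (fun ν hν i => ?_)
    (fun w hw => system_of_lc hd hq hη h0 hf ht0 ht1
      (fun v hv ⟨w, hw⟩ => hlc v hv ⟨q, e, w, hq, hN, hw⟩) w hw) ?_
  · have := hC0 _ (newton_mem (p := p) hN hC1 hb ν hν i)
    linarith
  · intro m hm n hn
    exact le_of_logMonomial (pole_bound hq hη) (fun j => hC0 _ (hb j))
      (fun j => hq.1 (hf j).1) hmq hv.surj hvq hω hm hn

end Pool.Agent.H72Acc
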