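import Pool.Agent.H72Acc.Weighted
import Pool.Agent.H72Acc.Comb

/-!
# The inequalities of monomial valuations and the systems of inequalities
-/

set_option autoImplicit false

noncomputable section

namespace Pool.Agent.H72Acc

open IsLocalRing Pool.Agent.FolGap

variable {k K : Type} [Field k] [Field K] [Algebra k K] {d r : ℕ}

theorem exists_intR {v : AddValuation K (WithTop ℤ)} {s : ℕ} {f : Fin s → K}
    (hf : ∀ j, f j ≠ 0) : ∃ n : Fin s → ℤ, ∀ j, v (f j) = ((n j : ℤ) : WithTop ℤ) := by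
  have h1 : ∀ j, ∃ n : ℤ, v (f j) = (n : WithTop ℤ) := by
    intro j
    obtain ⟨x, hx⟩ := WithTop.ne_top_iff_exists.1 (v.ne_top_iff.2 (hf j))
    exact ⟨x, hx.symm⟩
  choose n hn using h1
  exact ⟨n, hn⟩

/-- The data of a monomial valuation with positive primitive weights. -/
theorem exists_level [CharZero k] {p q : SmoothPoint k K d} (hd : 1 ≤ d) {e : Fin d →₀ ℕ}
    (hq : Over p q e) {w : Fin d → ℕ} (hw : ∀ i, 1 ≤ w i)
    (hg : Finset.univ.gcd w = 1) {D : Fin r → Derivation k K K} {h : K}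
    (h0 : ∃ g, wedge D h g ≠ 0) :
    ∃ v : AddValuation K (WithTop ℤ), MonVal q w v ∧ IsDivisor p v ∧
      ∃ m a : ℤ, OrdR v (wedge D h) m ∧ Disc p v a ∧ a + 1 ≤ ∑ i, (w i : ℤ) * (e i + 1) ∧
        ∃ φ : Fin r → Fin d, (wedge D h fun a => zz q (φ a)) ≠ 0 ∧
          v (wedge D h fun a => zz q (φ a)) ≤
            ((m - epsR v (wedge D h) m + ∑ a, (w (φ a) : ℤ) : ℤ) : WithTop ℤ) := by
  obtain ⟨v, hv⟩ := exists_val q hw
  have hnnq : ∀ f ∈ q.ring, 0 ≤ v f := fun f hf => hv.nonneg hw hf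
  have hnn : ∀ f ∈ p.ring, 0 ≤ v f := fun f hf => hnnq f (hq.1 hf)
  have hdiv : IsDivisor p v :=
    ⟨hnn, surj_of_gcd hg (val_zz_of_monomial (isMonomial_of_monVal hw hv)), hv.trdeg_gen hw hd⟩
  obtain ⟨a, ha, haw⟩ := disc_upper hd hq hw hv
  -- a lower bound
  have hcφ : ∀ φ : Fin r → Fin d, ∃ c : ℤ, ((c + ∑ a, (w (φ a) : ℤ) : ℤ) : WithTop ℤ) ≤
        v (wedge D h fun a => zz q (φ a)) := by
    intro φ
    rcases eq_or_ne (v (wedge D h fun a => zz q (φ a))) ⊤ with h1 | h1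
    · exact ⟨0, by rw [h1]; exact le_top⟩
    · obtain ⟨x, hx⟩ := WithTop.ne_top_iff_exists.1 h1
      refine ⟨x - ∑ a, (w (φ a) : ℤ), ?_⟩
      rw [← hx, WithTop.coe_le_coe]
      omega
  choose cφ hcφ using hcφ
  have hc0 : ∀ φ : Fin r → Fin d,
      (((-∑ φ' : Fin r → Fin d, |cφ φ'|) + ∑ a, (w (φ a) : ℤ) : ℤ) : WithTop ℤ) ≤
        v (wedge D h fun a => zz q (φ a)) := by
    intro φ
    refine le_trans ?_ (hcφ φ)
    have h1 : |cφ φ| ≤ ∑ φ' : Fin r → Fin d, |cφ φ'| :=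
      Finset.single_le_sum (f := fun φ' : Fin r → Fin d => |cφ φ'|)
        (fun φ' _ => abs_nonneg _) (Finset.mem_univ φ)
    have h2 := neg_abs_le (cφ φ)
    exact WithTop.coe_le_coe.2 (by omega)
  obtain ⟨m, hm⟩ := exists_ordR h0 (wedge_ge hw hv hc0)
  refine ⟨v, hv, hdiv, m, a, hm, ha, haw, ?_⟩
  by_contra hcon
  push Not at hcon
  have h1 : ∀ φ : Fin r → Fin d,
      (((m - epsR v (wedge D h) m + 1) + ∑ a, (w (φ a) : ℤ) : ℤ) : WithTop ℤ) ≤
        v (wedge D h fun a => zz q (φ a)) := by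
    intro φ
    by_cases hz : (wedge D h fun a => zz q (φ a)) = 0
    · rw [hz, v.map_zero]
      exact le_top
    · have h2 := hcon φ hz
      obtain ⟨x, hx⟩ := WithTop.ne_top_iff_exists.1 (v.ne_top_iff.2 hz)
      rw [← hx] at h2 ⊢
      rw [WithTop.coe_lt_coe] at h2
      rw [WithTop.coe_le_coe]
      omega
  have h2 := le_of_geR hm (wedge_ge hw hv h1)
  omega

/-- The system of inequalities follows from the inequalities for the monomial valuations. -/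
theorem system_of_lc [CharZero k] {p q : SmoothPoint k K d} (hd : 1 ≤ d) {e : Fin d →₀ ℕ}
    (hq : Over p q e) {D : Fin r → Derivation k K K} {h : K}
    (hη : ∀ f : Fin r → K, (∀ a, f a ∈ p.ring) → wedge D h f ∈ p.ring)
    (h0 : ∃ g, wedge D h g ≠ 0) {s : ℕ} {b : Fin s → ℝ} {f : Fin s → K}
    (hf : ∀ j, f j ∈ p.ring ∧ f j ≠ 0) {t : ℝ} (ht0 : 0 ≤ t) (ht1 : t ≤ 1)
    (hlc : ∀ v : AddValuation K (WithTop ℤ), IsDivisor p v →
      (∃ w : Fin d → ℕ, IsMonomial q w v) → LcAt p (wedge D h) b f t v)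
    (w : Fin d → ℕ) (hw : ∀ i, 1 ≤ w i) :
    ∃ ν ∈ newton q e (wedge D h) b f,
      t * ∑ i, (w i : ℝ) * ν i ≤ (1 - t) * ∑ i, (w i : ℝ) * (e i + 1) := by
  have : Nonempty (Fin d) := ⟨⟨0, hd⟩⟩
  obtain ⟨w', hw', hgcd⟩ := Finset.extract_gcd w (Finset.univ_nonempty (α := Fin d))
  set g : ℕ := Finset.univ.gcd w with hg
  have hww : ∀ i, w i = g * w' i := fun i => hw' i (Finset.mem_univ i)
  have hw1 : ∀ i, 1 ≤ w' i := by
    intro i
    have h1 := hw i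
    rw [hww i] at h1
    exact Nat.pos_of_mul_pos_left h1
  obtain ⟨v, hv, hdiv, m, a, hm, ha, haw, φ, hφ0, hφ⟩ := exists_level hd hq hw1 hgcd h0
  obtain ⟨n, hn⟩ := exists_intR (v := v) fun j => (hf j).2
  have h1 := lcAt_iff.1 (hlc v hdiv ⟨w', isMonomial_of_monVal hw1 hv⟩) m a hm ha n hn
  have hmem := pole_bound hq hη φ
  have hval := val_zz_of_monomial (isMonomial_of_monVal hw1 hv)
  have hmon0 : mon q (r • e) ≠ 0 := by
    intro h2
    have h3 := val_mon hval (r • e)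
    rw [h2, v.map_zero] at h3
    exact absurd h3 WithTop.top_ne_coe
  obtain ⟨α, hα, hαv⟩ := exists_supp_val hw1 hv hmem (mul_ne_zero hmon0 hφ0)
  have hβ : ∀ j, ∃ β, Supp q β (f j) ∧ (n j : ℝ) = (Finsupp.weight w' β : ℝ) := by
    intro j
    obtain ⟨β, hβ, hβv⟩ := exists_supp_val hw1 hv (hq.1 (hf j).1) (hf j).2
    refine ⟨β, hβ, ?_⟩
    rw [hn j, WithTop.coe_inj] at hβv
    rw [hβv]
    push_cast
    rfl
  choose β hβ hβn using hβ
  refine ⟨fun i => (α i : ℝ) - r * e i - cnt φ i + ∑ j, b j * (β j i : ℝ),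
    ⟨φ, α, β, hα, hβ, fun i => rfl⟩, ?_⟩
  have h2 : ((Finsupp.weight w' α : ℕ) : ℤ) ≤ (Finsupp.weight w' (r • e) : ℕ) +
      (m - epsR v (wedge D h) m + ∑ a, (w' (φ a) : ℤ)) := by
    rw [v.map_mul, val_mon hval] at hαv
    have h3 := add_le_add (le_refl ((((Finsupp.weight w' (r • e) : ℕ) : ℤ)) : WithTop ℤ)) hφ
    rw [hαv, ← WithTop.coe_add] at h3
    exact WithTop.coe_le_coe.1 h3
  have h3 : ((Finsupp.weight w' α : ℕ) : ℝ) ≤ r * ((Finsupp.weight w' e : ℕ) : ℝ) +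
      (((m - epsR v (wedge D h) m : ℤ) : ℝ) + ∑ a, (w' (φ a) : ℝ)) := by
    have := (Int.cast_le (R := ℝ)).2 h2
    rw [map_nsmul] at this
    push_cast at this ⊢
    rw [nsmul_eq_mul] at this
    push_cast at this
    exact this
  have h4 : ∑ i, (w' i : ℝ) * ((α i : ℝ) - r * e i - cnt φ i + ∑ j, b j * (β j i : ℝ)) ≤
      ((m - epsR v (wedge D h) m : ℤ) : ℝ) + ∑ j, b j * n j := by
    rw [pairing]
    have h5 : ∑ j, b j * (Finsupp.weight w' (β j) : ℝ) = ∑ j, b j * (n j : ℝ) :=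
      Finset.sum_congr rfl fun j _ => by rw [hβn j]
    rw [h5]
    linarith
  have h5 : ((a + 1 : ℤ) : ℝ) ≤ ∑ i, (w' i : ℝ) * (e i + 1) := by
    have := (Int.cast_le (R := ℝ)).2 haw
    push_cast at this ⊢
    exact this
  have h6 : t * ∑ i, (w' i : ℝ) * ((α i : ℝ) - r * e i - cnt φ i + ∑ j, b j * (β j i : ℝ)) ≤
      (1 - t) * ∑ i, (w' i : ℝ) * (e i + 1) :=
    (mul_le_mul_of_nonneg_left h4 ht0).trans
      (h1.trans (mul_le_mul_of_nonneg_left h5 (by linarith)))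
  have h7 : ∑ i, (w i : ℝ) * ((α i : ℝ) - r * e i - cnt φ i + ∑ j, b j * (β j i : ℝ)) =
      g * ∑ i, (w' i : ℝ) * ((α i : ℝ) - r * e i - cnt φ i + ∑ j, b j * (β j i : ℝ)) := by
    rw [Finset.mul_sum]
    refine Finset.sum_congr rfl fun i _ => ?_
    rw [hww i]
    push_cast
    ring
  have h8 : ∑ i, (w i : ℝ) * ((e i : ℝ) + 1) = g * ∑ i, (w' i : ℝ) * (e i + 1) := by
    rw [Finset.mul_sum]
    refine Finset.sum_congr rfl fun i _ => ?_
    rw [hww i]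
    push_cast
    ring
  rw [h7, h8]
  have hg0 : (0 : ℝ) ≤ g := Nat.cast_nonneg g
  have h9 := mul_le_mul_of_nonneg_left h6 hg0
  linarith

/-- The limit argument: an inequality for the weights `M ω + 1` gives one for the weights `ω`. -/
theorem limit_le {x y c : ℝ} (h : ∀ M : ℕ, (M : ℝ) * x ≤ M * y + c) : x ≤ y := by
  by_contra hcon
  push Not at hcon
  obtain ⟨M, hM⟩ := exists_nat_gt (c / (x - y))
  rw [div_lt_iff₀ (by linarith)] at hM
  have := h M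
  nlinarith

/-- The inequality for a divisor follows from the system of inequalities, if the order of the
`r`-vector and the orders of the functions are bounded by the values of the exponents. -/
theorem lc_of_system [CharZero k] {p q : SmoothPoint k K d} {e : Fin d →₀ ℕ}
    (hq : Over p q e) {D : Fin r → Derivation k K K} {h : K}
    {s : ℕ} {b : Fin s → ℝ} {f : Fin s → K} {t : ℝ} (ht0 : 0 ≤ t) (ht1 : t ≤ 1)
    {v : AddValuation K (WithTop ℤ)} (hdiv : IsDivisor p v) (hvq : ∀ g ∈ q.ring, 0 ≤ v g)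
    {ω : Fin d → ℕ} (hω : ∀ i, v (zz q i) = ((ω i : ℤ) : WithTop ℤ)) {c : ℝ}
    (hc : ∀ ν ∈ newton q e (wedge D h) b f, ∀ i, -c ≤ ν i)
    (hsys : ∀ w : Fin d → ℕ, (∀ i, 1 ≤ w i) → ∃ ν ∈ newton q e (wedge D h) b f,
      t * ∑ i, (w i : ℝ) * ν i ≤ (1 - t) * ∑ i, (w i : ℝ) * (e i + 1))
    (hle : ∀ m : ℤ, OrdR v (wedge D h) m → ∀ n : Fin s → ℤ,
      (∀ j, v (f j) = ((n j : ℤ) : WithTop ℤ)) → ∀ ν ∈ newton q e (wedge D h) b f,
        ((m - epsR v (wedge D h) m : ℤ) : ℝ) + ∑ j, b j * n j ≤ ∑ i, (ω i : ℝ) * ν i) :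
    LcAt p (wedge D h) b f t v := by
  rw [lcAt_iff]
  intro m a hm ha n hn
  have h1 := disc_lower hq hvq hdiv.surj hω ha
  have h2 : ∑ i, (ω i : ℝ) * (e i + 1) ≤ ((a + 1 : ℤ) : ℝ) := by
    have := (Int.cast_le (R := ℝ)).2 h1
    push_cast at this ⊢
    exact this
  refine le_trans ?_ (mul_le_mul_of_nonneg_left h2 (by linarith))
  refine limit_le (c := (1 - t) * ∑ i : Fin d, ((e i : ℝ) + 1) + t * (c * d)) fun M => ?_
  obtain ⟨ν, hν, hνle⟩ := hsys (fun i => M * ω i + 1) fun i => by omega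
  have h3 := hle m hm n hn ν hν
  have h4 : ∑ i, (((M * ω i + 1 : ℕ)) : ℝ) * ν i = M * ∑ i, (ω i : ℝ) * ν i + ∑ i, ν i := by
    rw [Finset.mul_sum, ← Finset.sum_add_distrib]
    refine Finset.sum_congr rfl fun i _ => ?_
    push_cast
    ring
  have h5 : ∑ i, (((M * ω i + 1 : ℕ)) : ℝ) * ((e i : ℝ) + 1) =
      M * ∑ i, (ω i : ℝ) * (e i + 1) + ∑ i : Fin d, ((e i : ℝ) + 1) := by
    rw [Finset.mul_sum, ← Finset.sum_add_distrib]
    refine Finset.sum_congr rfl fun i _ => ?_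
    push_cast
    ring
  rw [h4, h5] at hνle
  have h6 : -(c * d) ≤ ∑ i, ν i := by
    have h7 : ∑ _i : Fin d, (-c) ≤ ∑ i, ν i := Finset.sum_le_sum fun i _ => hc ν hν i
    rw [Finset.sum_const, Finset.card_univ, Fintype.card_fin, nsmul_eq_mul] at h7
    linarith
  have hM : (0 : ℝ) ≤ M := Nat.cast_nonneg M
  have h7 := mul_le_mul_of_nonneg_left h3 (mul_nonneg ht0 hM)
  have h8 := mul_le_mul_of_nonneg_left h6 ht0
  nlinarith

/-- The coordinates of the exponents. -/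
theorem newton_mem {p q : SmoothPoint k K d} {e : Fin d →₀ ℕ}
    {N : ℕ} (hN : ∀ i, e i ≤ N) {D : Fin r → Derivation k K K} {h : K} {s : ℕ} {b : Fin s → ℝ}
    {f : Fin s → K} {C : AddSubmonoid ℝ} (h1 : (1 : ℝ) ∈ C) (hb : ∀ j, b j ∈ C) :
    ∀ ν ∈ newton q e (wedge D h) b f, ∀ i, ν i + ((r * N + 1 : ℕ) : ℝ) ∈ C := by
  have _ := p
  rintro ν ⟨φ, α, β, hα, hβ, hν⟩ i
  have hnat : ∀ n : ℕ, ((n : ℕ) : ℝ) ∈ C := by
    intro n
    have := C.nsmul_mem h1 n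
    rwa [nsmul_eq_mul, mul_one] at this
  have hinj : Function.Injective φ := inj_of_wedge (right_ne_zero_of_mul hα.ne_zero)
  obtain ⟨x, hx⟩ := Nat.exists_eq_add_of_le (hN i)
  have h2 : ∑ j, b j * (β j i : ℝ) ∈ C := by
    refine sum_mem fun j _ => ?_
    rw [mul_comm, ← nsmul_eq_mul]
    exact C.nsmul_mem (hb j) _
  have h3 : 1 - cnt φ i ∈ C := by
    rcases cnt_inj hinj i with h4 | h4
    · rw [h4, sub_zero]
      exact h1
    · rw [h4, sub_self]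
      exact C.zero_mem
  have h4 : ν i + ((r * N + 1 : ℕ) : ℝ) =
      ((α i + r * x : ℕ) : ℝ) + (1 - cnt φ i) + ∑ j, b j * (β j i : ℝ) := by
    rw [hν i, hx]
    push_cast
    ring
  rw [h4]
  exact C.add_mem (C.add_mem (hnat _) h3) h2

end Pool.Agent.H72Acc
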