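import Pool.Agent.H72Acc.Wedge
import Pool.Agent.FolGap.Det
import Pool.Agent.FolGap.Ord

/-!
# The order of an `r`-vector along a divisor

With `m` the order and `ε` as in the definitions, `m - ε` is the largest integer `c` such that
`v (η (f_1, ..., f_r)) ≥ v f_1 + ... + v f_r + c` for all `f_1, ..., f_r`.
-/

set_option autoImplicit false

noncomputable section

namespace Pool.Agent.H72Acc

open IsLocalRing Pool.Agent.FolGap

variable {k K : Type} [Field k] [Field K] [Algebra k K] {d r : ℕ}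

theorem wedge_zero {D : Fin r → Derivation k K K} {h : K} {f : Fin r → K} {j : Fin r}
    (hj : f j = 0) : wedge D h f = 0 := by
  unfold wedge
  rw [Matrix.det_eq_zero_of_column_eq_zero j (fun a => by rw [Matrix.of_apply, hj, map_zero]),
    mul_zero]

theorem wedge_pi {D : Fin r → Derivation k K K} {h : K} {π : K} (hπ0 : π ≠ 0) (n : Fin r → ℤ)
    (u : Fin r → K) :
    wedge D h (fun j => π ^ n j * u j) = (∏ j, π ^ n j) * (wedge D h u +
      ∑ j, ((n j : K) * u j * π ^ (-1 : ℤ)) * wedge D h (Function.update u j π)) := by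
  classical
  have hder : ∀ (a j : Fin r), D a (π ^ n j * u j)
      = π ^ n j * (D a (u j) + D a π * ((n j : K) * u j * π ^ (-1 : ℤ))) := by
    intro a j
    rw [Derivation.leibniz, Derivation.leibniz_zpow, smul_eq_mul, smul_eq_mul, smul_eq_mul,
      zsmul_eq_mul, zpow_sub_one₀ hπ0, zpow_neg_one]
    ring
  have hupd : ∀ j, wedge D h (Function.update u j π) =
      h * ((Matrix.of fun a i => D a (u i)).updateCol j fun a => D a π).det := by
    intro j
    unfold wedge
    congr 2
    ext a l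
    rw [Matrix.updateCol_apply, Matrix.of_apply, Matrix.of_apply]
    by_cases hl : l = j
    · rw [if_pos hl, hl, Function.update_self]
    · rw [if_neg hl, Function.update_of_ne hl]
  have hdet : (Matrix.of fun a j => D a (π ^ n j * u j)).det =
      (∏ j, π ^ n j) * ((Matrix.of fun a j => D a (u j)).det +
      ∑ j, ((n j : K) * u j * π ^ (-1 : ℤ)) *
        ((Matrix.of fun a j => D a (u j)).updateCol j fun a => D a π).det) := by
    rw [← det_add_rank_one, ← Matrix.det_mul_row]
    congr 1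
    ext a j
    rw [Matrix.of_apply, Matrix.of_apply, Matrix.of_apply, hder]
    rfl
  simp only [hupd]
  unfold wedge
  rw [hdet, mul_add, mul_add, mul_add, Finset.mul_sum, Finset.mul_sum, Finset.mul_sum]
  congr 1
  · ring
  · exact Finset.sum_congr rfl fun j _ => by ring

private theorem val_nat_OrdR (v : AddValuation K (WithTop ℤ)) (n : ℕ) : 0 ≤ v (n : K) := by
  induction n with
  | zero =>
    rw [Nat.cast_zero, v.map_zero]
    exact le_top
  | succ n ih =>
    rw [Nat.cast_succ]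
    exact v.map_le_add ih v.map_one.ge

private theorem val_int_OrdR (v : AddValuation K (WithTop ℤ)) (n : ℤ) : 0 ≤ v (n : K) := by
  obtain ⟨m, h | h⟩ := Int.eq_nat_or_neg n
  · rw [h, Int.cast_natCast]
    exact val_nat_OrdR v m
  · rw [h, Int.cast_neg, v.map_neg, Int.cast_natCast]
    exact val_nat_OrdR v m

theorem pi_ne_zero {v : AddValuation K (WithTop ℤ)} {π : K} (hπ : v π = 1) : π ≠ 0 := by
  rintro rfl
  rw [v.map_zero] at hπ
  exact WithTop.top_ne_one hπ

theorem val_zpow {v : AddValuation K (WithTop ℤ)} {π : K} (hπ : v π = 1) (n : ℤ) :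
    v (π ^ n) = ((n : ℤ) : WithTop ℤ) := by
  have hnat : ∀ m : ℕ, v (π ^ m) = ((m : ℤ) : WithTop ℤ) := by
    intro m
    rw [v.map_pow, hπ, nsmul_one]
    rfl
  have hπ0 : π ≠ 0 := pi_ne_zero hπ
  obtain ⟨m, h | h⟩ := Int.eq_nat_or_neg n
  · rw [h, zpow_natCast]
    exact hnat m
  · have h0 : v (π ^ (-(m : ℤ))) ≠ ⊤ := by
      rw [Ne, v.top_iff]
      exact zpow_ne_zero _ hπ0
    obtain ⟨b, hb⟩ := WithTop.ne_top_iff_exists.1 h0
    have h1 : v (π ^ (-(m : ℤ))) + v (π ^ m) = 0 := by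
      rw [← v.map_mul, ← zpow_natCast, ← zpow_add₀ hπ0, neg_add_cancel, zpow_zero, v.map_one]
    rw [← hb, hnat] at h1
    have h2 : b + (m : ℤ) = 0 := by exact_mod_cast h1
    rw [h, ← hb, eq_neg_of_add_eq_zero_left h2]

theorem val_prod (v : AddValuation K (WithTop ℤ)) {ι : Type} (s : Finset ι) (g : ι → K) :
    v (∏ j ∈ s, g j) = ∑ j ∈ s, v (g j) := by
  classical
  induction s using Finset.induction_on with
  | empty => rw [Finset.prod_empty, Finset.sum_empty, v.map_one]
  | insert a s ha ih => rw [Finset.prod_insert ha, Finset.sum_insert ha, v.map_mul, ih]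

theorem coe_sum_int {ι : Type} (s : Finset ι) (n : ι → ℤ) :
    (((∑ j ∈ s, n j : ℤ)) : WithTop ℤ) = ∑ j ∈ s, ((n j : ℤ) : WithTop ℤ) := by
  classical
  induction s using Finset.induction_on with
  | empty => rfl
  | insert a s ha ih => rw [Finset.sum_insert ha, Finset.sum_insert ha, WithTop.coe_add, ih]

theorem ge_of_ordR {v : AddValuation K (WithTop ℤ)} (hv : ∃ f : K, v f = 1)
    {D : Fin r → Derivation k K K} {h : K} {m : ℤ} (hm : OrdR v (wedge D h) m) (f : Fin r → K) :
    ∑ j, v (f j) + ((m - epsR v (wedge D h) m : ℤ) : WithTop ℤ) ≤ v (wedge D h f) := by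
  classical
  by_cases hf : ∃ j, f j = 0
  · obtain ⟨j, hj⟩ := hf
    rw [wedge_zero hj, v.map_zero]
    exact le_top
  push Not at hf
  obtain ⟨π, hπ⟩ := hv
  have hπ0 : π ≠ 0 := pi_ne_zero hπ
  have hex : ∀ j, ∃ (n : ℤ) (u : K), v (f j) = (n : WithTop ℤ) ∧ v u = 0 ∧ f j = π ^ n * u := by
    intro j
    obtain ⟨n, hn⟩ := WithTop.ne_top_iff_exists.1 (v.ne_top_iff.2 (hf j))
    refine ⟨n, f j * π ^ (-n), hn.symm, ?_, ?_⟩
    · rw [v.map_mul, val_zpow hπ, ← hn, ← WithTop.coe_add, add_neg_cancel]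
      rfl
    · rw [mul_comm (f j), ← mul_assoc, ← zpow_add₀ hπ0, add_neg_cancel, zpow_zero, one_mul]
  choose n u hn hu hfu using hex
  have hfeq : f = fun j => π ^ n j * u j := funext hfu
  obtain ⟨e, he, he0, hinv⟩ : ∃ e : ℤ, epsR v (wedge D h) m = e ∧ 0 ≤ e ∧
      ∀ g : Fin r → K, (∀ j, 0 ≤ v (g j)) → (∃ j, 0 < v (g j)) →
        ((m - e + 1 : ℤ) : WithTop ℤ) ≤ v (wedge D h g) := by
    by_cases hi : InvR v (wedge D h) m
    · refine ⟨0, if_pos hi, le_rfl, fun g hg hg' => ?_⟩
      have h1 := hi g hg hg'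
      by_cases ht : v (wedge D h g) = ⊤
      · rw [ht]
        exact le_top
      · obtain ⟨x, hx⟩ := WithTop.ne_top_iff_exists.1 ht
        rw [← hx] at h1 ⊢
        have h2 : m < x := WithTop.coe_lt_coe.1 h1
        exact WithTop.coe_le_coe.2 (by omega)
    · refine ⟨1, if_neg hi, zero_le_one, fun g hg _ => ?_⟩
      rw [sub_add_cancel]
      exact hm.1 g hg
  rw [he, hfeq, wedge_pi hπ0, v.map_mul, val_prod]
  have h1 : ∀ j, v (π ^ n j * u j) = v (π ^ n j) := by
    intro j
    rw [v.map_mul, hu, add_zero]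
  simp only [h1]
  refine add_le_add le_rfl (v.map_le_add ?_ (v.map_le_sum fun j _ => ?_))
  · refine le_trans (WithTop.coe_le_coe.2 (by omega)) (hm.1 u fun j => (hu j).ge)
  · rw [v.map_mul, v.map_mul, v.map_mul, hu, val_zpow hπ, add_zero]
    have h2 : ((m - e + 1 : ℤ) : WithTop ℤ) ≤ v (wedge D h (Function.update u j π)) := by
      refine hinv _ (fun l => ?_) ⟨j, ?_⟩
      · by_cases hl : l = j
        · rw [hl, Function.update_self, hπ]
          exact zero_le_one
        · rw [Function.update_of_ne hl]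
          exact (hu l).ge
      · rw [Function.update_self, hπ]
        exact zero_lt_one
    have h3 : ((m - e : ℤ) : WithTop ℤ) =
        0 + ((-1 : ℤ) : WithTop ℤ) + ((m - e + 1 : ℤ) : WithTop ℤ) := by
      rw [zero_add, ← WithTop.coe_add]
      congr 1
      ring
    rw [h3]
    exact add_le_add (add_le_add (val_int_OrdR v _) le_rfl) h2

theorem le_of_geR {v : AddValuation K (WithTop ℤ)} {η : (Fin r → K) → K} {m c : ℤ}
    (hm : OrdR v η m) (hc : ∀ f : Fin r → K, ∑ j, v (f j) + (c : WithTop ℤ) ≤ v (η f)) :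
    c ≤ m - epsR v η m := by
  by_cases hinv : InvR v η m
  · have he : epsR v η m = 0 := if_pos hinv
    rw [he, sub_zero]
    exact hm.2 fun f hf => (le_add_of_nonneg_left (Finset.sum_nonneg fun j _ => hf j)).trans (hc f)
  · have he : epsR v η m = 1 := if_neg hinv
    rw [he]
    unfold InvR at hinv
    push Not at hinv
    obtain ⟨f, hf, ⟨j, hj⟩, hηf⟩ := hinv
    have h1 := (hc f).trans hηf
    have h2 : ((1 : ℤ) : WithTop ℤ) ≤ ∑ j, v (f j) := by
      have h3 : ((1 : ℤ) : WithTop ℤ) ≤ v (f j) := by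
        rcases eq_or_ne (v (f j)) ⊤ with h4 | h4
        · rw [h4]
          exact le_top
        · obtain ⟨x, hx⟩ := WithTop.ne_top_iff_exists.1 h4
          rw [← hx] at hj ⊢
          have h5 : 0 < x := WithTop.coe_lt_coe.1 hj
          exact WithTop.coe_le_coe.2 (by omega)
      exact h3.trans (Finset.single_le_sum (fun i _ => hf i) (Finset.mem_univ j))
    have h3 := (add_le_add h2 (le_refl (c : WithTop ℤ))).trans h1
    rw [← WithTop.coe_add] at h3
    have h4 : 1 + c ≤ m := WithTop.coe_le_coe.1 h3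
    omega

theorem exists_ordR {v : AddValuation K (WithTop ℤ)} {D : Fin r → Derivation k K K} {h : K}
    (h0 : ∃ g, wedge D h g ≠ 0) {c : ℤ}
    (hc : ∀ f : Fin r → K, ∑ j, v (f j) + (c : WithTop ℤ) ≤ v (wedge D h f)) :
    ∃ m, OrdR v (wedge D h) m := by
  classical
  obtain ⟨g, hg⟩ := h0
  have hg0 : ∀ j, g j ≠ 0 := fun j hj => hg (wedge_zero hj)
  have h2 : ∀ j, ∃ (y x : K), 0 ≤ v y ∧ x ≠ 0 ∧ ∀ a, D a y = x * D a (g j) := by
    intro j
    by_cases hvg : 0 ≤ v (g j)
    · exact ⟨g j, 1, hvg, one_ne_zero, fun a => (one_mul _).symm⟩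
    · refine ⟨(g j)⁻¹, -(g j)⁻¹ ^ 2, ?_,
        neg_ne_zero.2 (pow_ne_zero _ (inv_ne_zero (hg0 j))), fun a => ?_⟩
      · obtain ⟨x, hx⟩ := WithTop.ne_top_iff_exists.1 (v.ne_top_iff.2 (hg0 j))
        rw [v.map_inv, ← hx]
        rw [← hx] at hvg
        have h3 : x < 0 := by
          by_contra h4
          exact hvg (WithTop.coe_le_coe.2 (not_lt.1 h4))
        have h4 : (0 : ℤ) ≤ -x := by omega
        exact WithTop.coe_le_coe.2 h4
      · rw [Derivation.leibniz_inv, smul_eq_mul]
  choose y x hy hx hDy using h2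
  have hwy : wedge D h y ≠ 0 := by
    have h3 : wedge D h y = (∏ j, x j) * wedge D h g := by
      unfold wedge
      have h4 : (Matrix.of fun a j => D a (y j)) =
          Matrix.of fun a j => x j * (Matrix.of fun a j => D a (g j)) a j := by
        ext a j
        rw [Matrix.of_apply, Matrix.of_apply, Matrix.of_apply, hDy]
      rw [h4, Matrix.det_mul_row]
      ring
    rw [h3]
    exact mul_ne_zero (Finset.prod_ne_zero_iff.2 fun j _ => hx j) hg
  obtain ⟨b, hb⟩ := WithTop.ne_top_iff_exists.1 (v.ne_top_iff.2 hwy)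
  obtain ⟨m, hm1, hm2⟩ := Int.exists_greatest_of_bdd
    (P := fun m : ℤ => ∀ f : Fin r → K, (∀ j, 0 ≤ v (f j)) → (m : WithTop ℤ) ≤ v (wedge D h f))
    ⟨b, fun z hz => by
      have h3 := hz y hy
      rw [← hb] at h3
      exact WithTop.coe_le_coe.1 h3⟩
    ⟨c, fun f hf => (le_add_of_nonneg_left (Finset.sum_nonneg fun j _ => hf j)).trans (hc f)⟩
  exact ⟨m, hm1, fun z hz => hm2 z hz⟩

end Pool.Agent.H72Acc
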