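import Pool.Agent.FolGap.Hom

/-!
# Exponents of an element of the local ring

`Supp p β f`: the iterated partial derivative `∂ ^ β f` (in some order) is a unit of the local ring.
`Supp.le`: then `f ∈ filt w n` implies `n ≤ ⟨w, β⟩`. `exists_supp`: the order of `f` with respect to
the weights `w` is `⟨w, β⟩`, for some exponent `β`.
-/

set_option autoImplicit false

noncomputable section

namespace Pool.Agent.H72Acc

open IsLocalRing Pool.Agent.FolGap

variable {k K : Type} [Field k] [Field K] [Algebra k K] {d : ℕ}

/-- Some iterated partial derivative of `f`, with the exponent `β`, is not in the maximal ideal. -/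
inductive Supp (p : SmoothPoint k K d) : (Fin d →₀ ℕ) → K → Prop
  | zero (f : K) : f ∉ filt p (w1 d) 1 → Supp p 0 f
  | succ (i : Fin d) (β : Fin d →₀ ℕ) (f : K) : Supp p β (p.der i f) →
      Supp p (β + Finsupp.single i 1) f

private theorem filt_one_Supp (p : SmoothPoint k K d) {w : Fin d → ℕ} {f : K}
    (hf : f ∈ filt p w 1) : f ∈ filt p (w1 d) 1 := by
  have h : filt p w 1 ≤ filt p (w1 d) 1 := by
    unfold filt
    refine Submodule.span_mono ?_
    rintro x ⟨α, hα, rfl⟩
    refine ⟨α, ?_, rfl⟩
    obtain ⟨i, hi⟩ : ∃ i, α i ≠ 0 := by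
      by_contra hcon
      push Not at hcon
      have h0 : α = 0 := Finsupp.ext hcon
      rw [h0, map_zero] at hα
      omega
    rw [Finsupp.weight_eq_sum]
    have h1 := Finset.single_le_sum (f := fun j => α j • w1 d j) (fun j _ => Nat.zero_le _)
      (Finset.mem_univ i)
    refine le_trans ?_ h1
    show 1 ≤ α i • w1 d i
    unfold w1
    rw [smul_eq_mul, mul_one]
    omega
  exact h hf

theorem Supp.le {p : SmoothPoint k K d} {w : Fin d → ℕ}
    {β : Fin d →₀ ℕ} {f : K} (h : Supp p β f) : ∀ n : ℕ, f ∈ filt p w n →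
      n ≤ Finsupp.weight w β := by
  induction h with
  | zero f hf =>
    intro n hn
    by_contra hcon
    rw [map_zero] at hcon
    exact hf (filt_one_Supp p (filt_anti p w (by omega : 1 ≤ n) hn))
  | succ i β f _ ih =>
    intro n hn
    have h1 := ih _ (filt_der p w hn i)
    rw [map_add, Finsupp.weight_single, one_smul]
    omega

theorem der_aeval (p : SmoothPoint k K d) (i : Fin d) (P : MvPolynomial (Fin d) k) :
    p.der i (MvPolynomial.aeval (zz p) P) =
      MvPolynomial.aeval (zz p) (MvPolynomial.pderiv i P) := by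
  induction P using MvPolynomial.induction_on with
  | C a =>
    rw [MvPolynomial.pderiv_C, map_zero, MvPolynomial.aeval_C, Derivation.map_algebraMap]
  | add P Q hP hQ => rw [map_add, map_add, map_add, map_add, hP, hQ]
  | mul_X P j hP =>
    have h1 : p.der i (zz p j) = if i = j then 1 else 0 := p.der_coord i j
    have h2 : MvPolynomial.aeval (zz p)
        (MvPolynomial.pderiv i (MvPolynomial.X j : MvPolynomial (Fin d) k)) =
        (if i = j then 1 else 0 : K) := by
      by_cases hij : i = j
      · subst hij
        rw [MvPolynomial.pderiv_X_self, map_one, if_pos rfl]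
      · rw [MvPolynomial.pderiv_X_of_ne (Ne.symm hij), map_zero, if_neg hij]
    have h3 : MvPolynomial.aeval (zz p) (P * MvPolynomial.X j) =
        MvPolynomial.aeval (zz p) P * zz p j := by
      rw [map_mul, MvPolynomial.aeval_X]
    rw [h3, Derivation.leibniz, hP, h1, MvPolynomial.pderiv_mul, map_add, map_mul, map_mul, h2,
      MvPolynomial.aeval_X, smul_eq_mul, smul_eq_mul]
    ring

private theorem hom_weight_Supp {w : Fin d → ℕ} {n : ℕ} {P : MvPolynomial (Fin d) k}
    (hP : P.IsWeightedHomogeneous w n) {i : Fin d} {m : Fin d →₀ ℕ}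
    (hm : MvPolynomial.coeff m (MvPolynomial.pderiv i P) ≠ 0) :
    Finsupp.weight w m + w i = n := by
  rw [MvPolynomial.coeff_pderiv] at hm
  have h1 := hP (left_ne_zero_of_mul hm)
  rw [map_add, Finsupp.weight_single, one_smul] at h1
  exact h1

private theorem hom_const_Supp [CharZero k] {P : MvPolynomial (Fin d) k}
    (hP : ∀ i, MvPolynomial.pderiv i P = 0) {m : Fin d →₀ ℕ} (hm : m ≠ 0) :
    MvPolynomial.coeff m P = 0 := by
  obtain ⟨i, hi⟩ : ∃ i, m i ≠ 0 := by
    by_contra hc
    push Not at hc
    exact hm (Finsupp.ext hc)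
  have h1 := congrArg (MvPolynomial.coeff (m - Finsupp.single i 1)) (hP i)
  rw [MvPolynomial.coeff_pderiv, MvPolynomial.coeff_zero] at h1
  have h2 : m - Finsupp.single i 1 + Finsupp.single i 1 = m := by
    refine tsub_add_cancel_of_le ?_
    rw [Finsupp.single_le_iff]
    exact Nat.one_le_iff_ne_zero.2 hi
  rw [h2] at h1
  rcases mul_eq_zero.1 h1 with h3 | h3
  · exact h3
  · exfalso
    have h4 : (((m - Finsupp.single i 1 : Fin d →₀ ℕ) i + 1 : ℕ) : k) = 0 := by
      push_cast
      exact h3
    exact Nat.cast_ne_zero.2 (Nat.succ_ne_zero _) h4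

theorem exists_supp [CharZero k] (p : SmoothPoint k K d) {w : Fin d → ℕ} (hw : ∀ i, 1 ≤ w i) :
    ∀ (n : ℕ) (f : K), IsOrd p w f n → ∃ β, Supp p β f ∧ Finsupp.weight w β = n := by
  intro n
  induction n using Nat.strong_induction_on with
  | _ n ih =>
    intro f hf
    rcases Nat.eq_zero_or_pos n with rfl | hn
    · refine ⟨0, Supp.zero f fun h1 => hf.2 ?_, map_zero _⟩
      have hfr : f ∈ p.ring := filt_le hf.1
      have h2 := (filt_one_iff p (w := w1 d) (fun _ => le_rfl) ⟨f, hfr⟩).1 h1
      exact (filt_one_iff p hw ⟨f, hfr⟩).2 h2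
    · obtain ⟨P, hP, hr⟩ := filt_res p hw hf.1
      have hP0 : P ≠ 0 := by
        rintro rfl
        rw [map_zero, sub_zero] at hr
        exact hf.2 hr
      obtain ⟨i, hi⟩ : ∃ i, MvPolynomial.pderiv i P ≠ 0 := by
        by_contra hc
        push Not at hc
        refine hP0 (MvPolynomial.ext _ _ fun m => ?_)
        rw [MvPolynomial.coeff_zero]
        by_cases hm : m = 0
        · by_contra h1
          have h2 := hP h1
          rw [hm, map_zero] at h2
          omega
        · exact hom_const_Supp hc hm
      have hwi : w i ≤ n := by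
        obtain ⟨m, hm⟩ := MvPolynomial.ne_zero_iff.1 hi
        have := hom_weight_Supp hP hm
        omega
      have hw1 := hw i
      have hhom : (MvPolynomial.pderiv i P).IsWeightedHomogeneous w (n - w i) := by
        intro m hm
        have := hom_weight_Supp hP hm
        omega
      have hrem : p.der i f - MvPolynomial.aeval (zz p) (MvPolynomial.pderiv i P) ∈
          filt p w (n - w i + 1) := by
        rw [← der_aeval, ← map_sub]
        have h1 := filt_der p w hr i
        have h2 : n + 1 - w i = n - w i + 1 := by omega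
        rwa [h2] at h1
      have hord : IsOrd p w (p.der i f) (n - w i) := by
        refine ⟨filt_der p w hf.1 i, fun h1 => hi ?_⟩
        refine hom_eq_zero p hw hhom ?_
        have h2 := sub_mem h1 hrem
        rwa [sub_sub_cancel] at h2
      obtain ⟨β, hβ, hβw⟩ := ih (n - w i) (by omega) _ hord
      refine ⟨β + Finsupp.single i 1, Supp.succ i β f hβ, ?_⟩
      rw [map_add, Finsupp.weight_single, one_smul, hβw]
      omega

end Pool.Agent.H72Acc
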