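import Pool.Agent.H72Acc.Defs
import Pool.Agent.H72Acc.DerSum

/-!
# `r`-vectors and Jacobians in coordinates
-/

set_option autoImplicit false

noncomputable section

namespace Pool.Agent.H72Acc

open IsLocalRing Pool.Agent.FolGap

variable {k K : Type} [Field k] [Field K] [Algebra k K] {d r : ℕ}

/-- The `r`-vector in coordinates. -/
theorem wedge_expand [CharZero k] (p : SmoothPoint k K d) (D : Fin r → Derivation k K K) (h : K)
    (f : Fin r → K) :
    wedge D h f = ∑ φ : Fin r → Fin d,
      (∏ j, p.der (φ j) (f j)) * wedge D h fun j => zz p (φ j) := by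
  classical
  unfold wedge
  have h1 : (Matrix.of fun a j : Fin r => D a (f j)).det =
      Matrix.detRowAlternating.toMultilinearMap
        (fun j => ∑ l : Fin d, p.der l (f j) • fun a : Fin r => D a (zz p l)) := by
    rw [← Matrix.det_transpose]
    show Matrix.detRowAlternating _ = Matrix.detRowAlternating _
    congr 1
    ext j a
    rw [Matrix.transpose_apply, Matrix.of_apply, Finset.sum_apply, der_sum p (D a) (f j)]
    refine Finset.sum_congr rfl fun l _ => ?_
    rw [Pi.smul_apply, smul_eq_mul, mul_comm]
  rw [h1, MultilinearMap.map_sum, Finset.mul_sum]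
  refine Finset.sum_congr rfl fun φ _ => ?_
  rw [MultilinearMap.map_smul_univ, smul_eq_mul]
  have h2 : (Matrix.of fun a j : Fin r => D a (zz p (φ j))).det =
      Matrix.detRowAlternating.toMultilinearMap (fun j => fun a : Fin r => D a (zz p (φ j))) := by
    rw [← Matrix.det_transpose]
    rfl
  rw [h2]
  ring

/-- Jacobians in two coordinate systems. -/
theorem jac_mul [CharZero k] (p q : SmoothPoint k K d) (f : Fin d → K) :
    jac q f = jac q (fun l => zz p l) * jac p f := by
  unfold jac
  rw [← Matrix.det_mul]
  congr 1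
  ext i j
  rw [Matrix.mul_apply, Matrix.of_apply]
  exact der_sum p (q.der i) (f j)

/-- If `p.ring ≤ q.ring` then `J ∂_l f`, for the derivations at `p` and `f` in the ring of `q`, is in
the ring of `q`, where `J` is the Jacobian. -/
theorem jac_mul_der [CharZero k] {p q : SmoothPoint k K d} (hle : p.ring ≤ q.ring) (l : Fin d)
    {f : K} (hf : f ∈ q.ring) : jac q (fun l => zz p l) * p.der l f ∈ q.ring := by
  classical
  obtain ⟨M, hM⟩ : ∃ M : Matrix (Fin d) (Fin d) q.ring, M = Matrix.of fun i l =>
      (⟨q.der i (zz p l), q.der_mem i ⟨zz p l, hle (p.coord l).2⟩⟩ : q.ring) := ⟨_, rfl⟩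
  have hjac : jac q (fun l => zz p l) = algebraMap q.ring K M.det := by
    rw [RingHom.map_det, hM]
    rfl
  -- the vector of the derivatives at `q` is `M` times the vector of the derivatives at `p`
  have h1 : ∀ i, q.der i f = ∑ l, (M i l : K) * p.der l f := by
    intro i
    rw [der_sum p (q.der i) f, hM]
    rfl
  obtain ⟨g, hg⟩ : ∃ g : Fin d → q.ring, g = fun i => ⟨q.der i f, q.der_mem i ⟨f, hf⟩⟩ := ⟨_, rfl⟩
  have h2 : ((∑ i, M.adjugate l i * g i : q.ring) : K) =
      jac q (fun l => zz p l) * p.der l f := by
    have h3 : ((∑ i, M.adjugate l i * g i : q.ring) : K) =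
        ∑ i, (M.adjugate l i : K) * q.der i f := by
      rw [hg]
      push_cast
      rfl
    rw [h3]
    simp only [h1, Finset.mul_sum]
    rw [Finset.sum_comm]
    have h4 : ∀ l', ∑ i, (M.adjugate l i : K) * ((M i l' : K) * p.der l' f) =
        (((M.adjugate * M) l l' : q.ring) : K) * p.der l' f := by
      intro l'
      rw [Matrix.mul_apply]
      push_cast
      rw [Finset.sum_mul]
      exact Finset.sum_congr rfl fun i _ => by ring
    simp only [h4, Matrix.adjugate_mul, Matrix.smul_apply, Matrix.one_apply]
    rw [Finset.sum_eq_single l]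
    · rw [if_pos rfl, smul_eq_mul, mul_one, hjac]
      rfl
    · intro l' _ hl'
      rw [if_neg (Ne.symm hl'), smul_zero]
      exact zero_mul _
    · intro h5
      exact absurd (Finset.mem_univ l) h5
  rw [← h2]
  exact Subtype.property _

end Pool.Agent.H72Acc
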