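import Pool.Agent.H72Acc.OrdR
import Pool.Agent.FolGap.ValDiv
import Pool.Agent.FolGap.ValJac
import Pool.Agent.FolGap.Jac
import Pool.Agent.FolGap.Shift
import Pool.Agent.FolGap.Smooth

/-!
# Monomial valuations on varieties over `X`
-/

set_option autoImplicit false

noncomputable section

namespace Pool.Agent.H72Acc

open IsLocalRing Pool.Agent.FolGap

variable {k K : Type} [Field k] [Field K] [Algebra k K] {d r : ℕ}

theorem Supp.ne_zero {q : SmoothPoint k K d} {β : Fin d →₀ ℕ} {f : K} (h : Supp q β f) :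
    f ≠ 0 := by
  induction h with
  | zero f hf =>
    rintro rfl
    exact hf (zero_mem _)
  | succ i β f _ ih =>
    rintro rfl
    exact ih (map_zero _)

theorem val_le_supp {q : SmoothPoint k K d} {w : Fin d → ℕ} {v : AddValuation K (WithTop ℤ)}
    (hv : IsMonomial q w v) {f : K} (hf : f ∈ q.ring) {β : Fin d →₀ ℕ} (h : Supp q β f) :
    v f ≤ (((Finsupp.weight w β : ℕ) : ℤ) : WithTop ℤ) := by
  by_contra hcon
  push Not at hcon
  have h1 : (((Finsupp.weight w β + 1 : ℕ) : ℤ) : WithTop ℤ) ≤ v f := by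
    rcases eq_or_ne (v f) ⊤ with h2 | h2
    · rw [h2]
      exact le_top
    · obtain ⟨x, hx⟩ := WithTop.ne_top_iff_exists.1 h2
      rw [← hx] at hcon ⊢
      rw [WithTop.coe_lt_coe] at hcon
      rw [WithTop.coe_le_coe]
      push_cast
      omega
  have h2 := h.le _ ((hv f hf _).1 h1)
  omega

theorem one_not_mem (q : SmoothPoint k K d) : (1 : K) ∉ filt q (w1 d) 1 := by
  intro h
  have h1 := (filt_one_iff q (w := w1 d) (fun _ => le_rfl) 1).1 h
  exact (mem_maximalIdeal _).1 h1 isUnit_one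

theorem val_zz_of_monomial {q : SmoothPoint k K d} {w : Fin d → ℕ}
    {v : AddValuation K (WithTop ℤ)} (hv : IsMonomial q w v) (i : Fin d) :
    v (zz q i) = ((w i : ℤ) : WithTop ℤ) := by
  refine le_antisymm ?_ ((hv _ (q.coord i).2 _).2 (coord_mem_filt q w i))
  have h1 : Supp q (0 + Finsupp.single i 1) (zz q i) := by
    refine Supp.succ i 0 _ (Supp.zero _ ?_)
    have h2 : q.der i (zz q i) = 1 := by
      have := q.der_coord i i
      rwa [if_pos rfl] at this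
    rw [h2]
    exact one_not_mem q
  have h2 := val_le_supp hv (q.coord i).2 h1
  rw [zero_add, Finsupp.weight_single, one_smul] at h2
  exact h2

theorem isMonomial_of_monVal {q : SmoothPoint k K d} {w : Fin d → ℕ} (hw : ∀ i, 1 ≤ w i)
    {v : AddValuation K (WithTop ℤ)} (hv : MonVal q w v) : IsMonomial q w v := by
  refine fun f hf n => ⟨fun h => ?_, fun h => hv.le hw h⟩
  by_cases h0 : f = 0
  · rw [h0]
    exact zero_mem _
  obtain ⟨m, hm⟩ := exists_ord q hw hf h0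
  rw [hv f m hm, WithTop.coe_le_coe] at h
  exact filt_anti q w (by omega) hm.1

theorem val_mon {q : SmoothPoint k K d} {v : AddValuation K (WithTop ℤ)} {ω : Fin d → ℕ}
    (hω : ∀ i, v (zz q i) = ((ω i : ℤ) : WithTop ℤ)) (α : Fin d →₀ ℕ) :
    v (mon q α) = (((Finsupp.weight ω α : ℕ) : ℤ) : WithTop ℤ) := by
  unfold mon
  rw [val_prod, Finsupp.weight_eq_sum]
  have h1 : ∀ i, v ((q.coord i : K) ^ α i) = (((α i * ω i : ℕ) : ℤ) : WithTop ℤ) := by
    intro i
    have h2 : v (q.coord i : K) = ((ω i : ℤ) : WithTop ℤ) := hω i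
    rw [v.map_pow, h2, ← WithTop.coe_nsmul]
    congr 1
  simp only [h1]
  rw [← coe_sum_int]
  congr 1
  push_cast
  rfl

theorem val_isUnitAt {q : SmoothPoint k K d} {v : AddValuation K (WithTop ℤ)}
    (hv : ∀ f ∈ q.ring, 0 ≤ v f) {u : K} (hu : IsUnitAt q u) : v u = 0 :=
  val_unit hv hu.1 hu.2.1 hu.2.2

/-- If the greatest common divisor of the weights is `1`, then the monomial valuation is
normalized. -/
theorem surj_of_gcd {q : SmoothPoint k K d} {w : Fin d → ℕ}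
    (hg : Finset.univ.gcd w = 1) {v : AddValuation K (WithTop ℤ)}
    (hv : ∀ i, v (zz q i) = ((w i : ℤ) : WithTop ℤ)) :
    ∃ f : K, v f = 1 := by
  let H : AddSubgroup ℤ :=
    { carrier := {n : ℤ | ∃ f : K, v f = (n : WithTop ℤ)}
      zero_mem' := ⟨1, by rw [v.map_one]; rfl⟩
      add_mem' := by
        rintro a b ⟨f, hf⟩ ⟨g, hg⟩
        exact ⟨f * g, by rw [v.map_mul, hf, hg]; rfl⟩
      neg_mem' := by
        rintro a ⟨f, hf⟩
        exact ⟨f⁻¹, by rw [v.map_inv, hf]; rfl⟩ }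
  obtain ⟨a, ha⟩ := Int.subgroup_cyclic H
  have hdvd : ∀ i, a.natAbs ∣ w i := by
    intro i
    have h1 : (w i : ℤ) ∈ H := ⟨zz q i, hv i⟩
    rw [ha, AddSubgroup.mem_closure_singleton] at h1
    obtain ⟨n, hn⟩ := h1
    have h2 : a ∣ (w i : ℤ) := ⟨n, by rw [← hn, smul_eq_mul, mul_comm]⟩
    exact Int.natAbs_dvd_natAbs.2 h2 |>.trans (by simp)
  have h1 : a.natAbs ∣ 1 := by
    rw [← hg]
    exact Finset.dvd_gcd fun i _ => hdvd i
  have h2 : a ∈ H := by
    rw [ha]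
    exact AddSubgroup.subset_closure rfl
  have h3 : (1 : ℤ) ∈ H := by
    rcases Int.natAbs_eq a with h4 | h4
    · rw [Nat.dvd_one.1 h1] at h4
      rw [h4] at h2
      exact h2
    · rw [Nat.dvd_one.1 h1] at h4
      rw [h4] at h2
      have := H.neg_mem h2
      simpa using this
  obtain ⟨f, hf⟩ := h3
  exact ⟨f, by rw [hf]; rfl⟩

/-- The lower bound for the values of an `r`-vector. -/
theorem wedge_ge [CharZero k] {q : SmoothPoint k K d} {w : Fin d → ℕ} (hw : ∀ i, 1 ≤ w i)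
    {v : AddValuation K (WithTop ℤ)} (hv : MonVal q w v) {D : Fin r → Derivation k K K} {h : K}
    {c : ℤ}
    (hc : ∀ φ : Fin r → Fin d, ((c + ∑ a, (w (φ a) : ℤ) : ℤ) : WithTop ℤ) ≤
      v (wedge D h fun a => zz q (φ a))) (f : Fin r → K) :
    ∑ j, v (f j) + ((c : ℤ) : WithTop ℤ) ≤ v (wedge D h f) := by
  rw [wedge_expand q D h f]
  refine v.map_le_sum fun φ _ => ?_
  rw [v.map_mul, val_prod]
  have h1 : ∀ j, v (f j) ≤ v (q.der (φ j) (f j)) + ((w (φ j) : ℤ) : WithTop ℤ) := by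
    intro j
    have h2 := hv.der hw (φ j) (f j)
    rwa [v.map_mul, val_zz_of_monomial (isMonomial_of_monVal hw hv), add_comm] at h2
  calc ∑ j, v (f j) + ((c : ℤ) : WithTop ℤ)
      ≤ ∑ j, (v (q.der (φ j) (f j)) + ((w (φ j) : ℤ) : WithTop ℤ)) + ((c : ℤ) : WithTop ℤ) :=
        add_le_add (Finset.sum_le_sum fun j _ => h1 j) le_rfl
    _ = ∑ j, v (q.der (φ j) (f j)) + ((c + ∑ a, (w (φ a) : ℤ) : ℤ) : WithTop ℤ) := by
        rw [Finset.sum_add_distrib, WithTop.coe_add, coe_sum_int, add_assoc,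
          add_comm (∑ a, (((w (φ a) : ℕ) : ℤ) : WithTop ℤ))]
    _ ≤ _ := add_le_add le_rfl (hc φ)

/-- The number of the indices `a` with `φ a = i`. -/
def cnt (φ : Fin r → Fin d) (i : Fin d) : ℝ := ∑ a, if φ a = i then (1 : ℝ) else 0

theorem sum_cnt (φ : Fin r → Fin d) (w : Fin d → ℝ) : ∑ i, w i * cnt φ i = ∑ a, w (φ a) := by
  unfold cnt
  simp only [Finset.mul_sum, mul_ite, mul_one, mul_zero]
  rw [Finset.sum_comm]
  refine Finset.sum_congr rfl fun a _ => ?_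
  simp

theorem cnt_inj {φ : Fin r → Fin d} (hφ : Function.Injective φ) (i : Fin d) :
    cnt φ i = 0 ∨ cnt φ i = 1 := by
  by_cases h : ∃ a, φ a = i
  · obtain ⟨a, rfl⟩ := h
    right
    unfold cnt
    rw [Finset.sum_eq_single a]
    · rw [if_pos rfl]
    · intro b _ hb
      rw [if_neg fun h => hb (hφ h)]
    · intro h
      exact absurd (Finset.mem_univ a) h
  · left
    push Not at h
    unfold cnt
    exact Finset.sum_eq_zero fun a _ => if_neg (h a)

theorem inj_of_wedge {q : SmoothPoint k K d} {D : Fin r → Derivation k K K} {h : K}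
    {φ : Fin r → Fin d} (h0 : (wedge D h fun a => zz q (φ a)) ≠ 0) : Function.Injective φ := by
  intro a b hab
  by_contra hne
  refine h0 ?_
  unfold wedge
  rw [Matrix.det_zero_of_column_eq hne fun c => by
    show D c (zz q (φ a)) = D c (zz q (φ b))
    rw [hab], mul_zero]

/-- The Newton set. -/
def newton (q : SmoothPoint k K d) (e : Fin d →₀ ℕ) (η : (Fin r → K) → K) {s : ℕ}
    (b : Fin s → ℝ) (f : Fin s → K) : Set (Fin d → ℝ) :=
  {ν | ∃ (φ : Fin r → Fin d) (α : Fin d →₀ ℕ) (β : Fin s → Fin d →₀ ℕ),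
    Supp q α (mon q (r • e) * η fun a => zz q (φ a)) ∧ (∀ j, Supp q (β j) (f j)) ∧
    ∀ i, ν i = (α i : ℝ) - r * e i - cnt φ i + ∑ j, b j * (β j i : ℝ)}

theorem weight_real (w : Fin d → ℕ) (γ : Fin d →₀ ℕ) :
    ((Finsupp.weight w γ : ℕ) : ℝ) = ∑ i, (w i : ℝ) * (γ i : ℝ) := by
  rw [Finsupp.weight_eq_sum]
  push_cast
  exact Finset.sum_congr rfl fun i _ => by rw [smul_eq_mul]; push_cast; ring

theorem pairing {s : ℕ} (w : Fin d → ℕ) (e : Fin d →₀ ℕ) (φ : Fin r → Fin d) (α : Fin d →₀ ℕ)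
    (β : Fin s → Fin d →₀ ℕ) (b : Fin s → ℝ) :
    ∑ i, (w i : ℝ) * ((α i : ℝ) - r * e i - cnt φ i + ∑ j, b j * (β j i : ℝ)) =
      (Finsupp.weight w α : ℝ) - r * (Finsupp.weight w e : ℝ) - ∑ a, (w (φ a) : ℝ) +
        ∑ j, b j * (Finsupp.weight w (β j) : ℝ) := by
  rw [weight_real w α, weight_real w e, ← sum_cnt φ (fun i => (w i : ℝ))]
  simp only [weight_real, mul_add, mul_sub, Finset.sum_add_distrib, Finset.sum_sub_distrib,
    Finset.mul_sum]
  congr 1
  · congr 1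
    congr 1
    exact Finset.sum_congr rfl fun i _ => by ring
  · rw [Finset.sum_comm]
    exact Finset.sum_congr rfl fun j _ => Finset.sum_congr rfl fun i _ => by ring

/-- The order of an element of the ring is the value of an exponent. -/
theorem exists_supp_val [CharZero k] {q : SmoothPoint k K d} {w : Fin d → ℕ} (hw : ∀ i, 1 ≤ w i)
    {v : AddValuation K (WithTop ℤ)} (hv : MonVal q w v) {f : K} (hf : f ∈ q.ring) (h0 : f ≠ 0) :
    ∃ β, Supp q β f ∧ v f = (((Finsupp.weight w β : ℕ) : ℤ) : WithTop ℤ) := by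
  obtain ⟨n, hn⟩ := exists_ord q hw hf h0
  have h1 := hv f n hn
  obtain ⟨β, hβ, hβn⟩ := exists_supp q hw n f hn
  exact ⟨β, hβ, by rw [h1, hβn]⟩

theorem mon_zero' (q : SmoothPoint k K d) : mon q 0 = 1 := by
  unfold mon
  simp

theorem mon_nsmul (q : SmoothPoint k K d) (n : ℕ) (e : Fin d →₀ ℕ) :
    mon q (n • e) = mon q e ^ n := by
  induction n with
  | zero => rw [zero_smul, mon_zero', pow_zero]
  | succ n ih => rw [succ_nsmul, mon_add, ih, pow_succ]

theorem mon_mem' (q : SmoothPoint k K d) (e : Fin d →₀ ℕ) : mon q e ∈ q.ring :=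
  prod_mem fun i _ => pow_mem (q.coord i).2 _

/-- The poles of the coefficients of the `r`-vector. -/
theorem pole_bound [CharZero k] {p q : SmoothPoint k K d} {e : Fin d →₀ ℕ} (hq : Over p q e)
    {D : Fin r → Derivation k K K} {h : K}
    (hη : ∀ f : Fin r → K, (∀ a, f a ∈ p.ring) → wedge D h f ∈ p.ring) (φ : Fin r → Fin d) :
    mon q (r • e) * wedge D h (fun a => zz q (φ a)) ∈ q.ring := by
  obtain ⟨hle, u, hu, hJ⟩ := hq
  have h1 : ∀ (l : Fin d) (f : K), f ∈ q.ring → mon q e * p.der l f ∈ q.ring := by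
    intro l f hf
    have h2 := jac_mul_der hle l hf
    have h3 : jac q (fun l => zz p l) = u * mon q e := hJ
    rw [h3] at h2
    have h4 := mul_mem hu.2.2 h2
    have h5 : u⁻¹ * (u * mon q e * p.der l f) = mon q e * p.der l f := by
      rw [← mul_assoc, ← mul_assoc, inv_mul_cancel₀ hu.1, one_mul]
    rwa [h5] at h4
  rw [wedge_expand p D h, Finset.mul_sum]
  refine sum_mem fun ψ _ => ?_
  have h2 : mon q (r • e) * ((∏ j, p.der (ψ j) (zz q (φ j))) * wedge D h fun j => zz p (ψ j)) =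
      (∏ j, (mon q e * p.der (ψ j) (zz q (φ j)))) * wedge D h fun j => zz p (ψ j) := by
    rw [Finset.prod_mul_distrib, Finset.prod_const, Finset.card_univ, Fintype.card_fin, mon_nsmul]
    ring
  rw [h2]
  refine mul_mem (prod_mem fun j _ => h1 _ _ (q.coord (φ j)).2) (hle (hη _ fun a => ?_))
  exact (p.coord (ψ a)).2

/-- The Jacobians at `p` and `q`. -/
theorem jac_over [CharZero k] {p q : SmoothPoint k K d} {e : Fin d →₀ ℕ} (hq : Over p q e)
    {v : AddValuation K (WithTop ℤ)} (hv : ∀ f ∈ q.ring, 0 ≤ v f) {ω : Fin d → ℕ}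
    (hω : ∀ i, v (zz q i) = ((ω i : ℤ) : WithTop ℤ)) (f : Fin d → K) :
    v (jac q f) = (((Finsupp.weight ω e : ℕ) : ℤ) : WithTop ℤ) + v (jac p f) := by
  obtain ⟨-, u, hu, hJ⟩ := hq
  have h1 : jac q (fun l => zz p l) = u * mon q e := hJ
  rw [jac_mul p q f, h1, v.map_mul, v.map_mul, val_isUnitAt hv hu, zero_add, val_mon hω]

theorem disc_lower [CharZero k] {p q : SmoothPoint k K d} {e : Fin d →₀ ℕ} (hq : Over p q e)
    {v : AddValuation K (WithTop ℤ)} (hv : ∀ f ∈ q.ring, 0 ≤ v f) (hs : ∃ f : K, v f = 1)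
    {ω : Fin d → ℕ} (hω : ∀ i, v (zz q i) = ((ω i : ℤ) : WithTop ℤ)) {a : ℤ}
    (ha : Disc p v a) : ∑ i, (ω i : ℤ) * (e i + 1) ≤ a + 1 := by
  have h1 : ∑ i, (ω i : ℤ) ≤ (a - (Finsupp.weight ω e : ℕ)) + 1 := by
    refine sum_le_disc (p := q) hs (a := a - (Finsupp.weight ω e : ℕ))
      (n := fun i => (ω i : ℤ)) (fun f hf => ?_) fun i => hω i
    rw [jac_over hq hv hω]
    have h2 := ha.1 f hf
    have h3 : ((-(a - ((Finsupp.weight ω e : ℕ) : ℤ)) : ℤ) : WithTop ℤ) =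
        (((Finsupp.weight ω e : ℕ) : ℤ) : WithTop ℤ) + ((-a : ℤ) : WithTop ℤ) := by
      rw [← WithTop.coe_add]
      congr 1
      ring
    rw [h3]
    exact add_le_add le_rfl h2
  have h2 : ((Finsupp.weight ω e : ℕ) : ℤ) = ∑ i, (ω i : ℤ) * e i := by
    rw [Finsupp.weight_eq_sum]
    push_cast
    exact Finset.sum_congr rfl fun i _ => by rw [smul_eq_mul]; push_cast; ring
  have h3 : ∑ i, (ω i : ℤ) * (e i + 1) = ∑ i, (ω i : ℤ) * e i + ∑ i, (ω i : ℤ) := by
    rw [← Finset.sum_add_distrib]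
    exact Finset.sum_congr rfl fun i _ => by ring
  rw [h3, ← h2]
  linarith

theorem disc_upper [CharZero k] {p q : SmoothPoint k K d} (hd : 1 ≤ d) {e : Fin d →₀ ℕ}
    (hq : Over p q e) {w : Fin d → ℕ} (hw : ∀ i, 1 ≤ w i) {v : AddValuation K (WithTop ℤ)}
    (hv : MonVal q w v) : ∃ a, Disc p v a ∧ a + 1 ≤ ∑ i, (w i : ℤ) * (e i + 1) := by
  have hnn : ∀ f ∈ q.ring, 0 ≤ v f := fun f hf => hv.nonneg hw hf
  have hω := val_zz_of_monomial (isMonomial_of_monVal hw hv)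
  have hb : ∀ f : Fin d → K, (∀ j, 0 ≤ v (f j)) →
      ((-((∑ i, (w i : ℤ)) - 1 + (Finsupp.weight w e : ℕ)) : ℤ) : WithTop ℤ) ≤ v (jac p f) := by
    intro f hf
    have h1 := hv.jac hw hd hf
    rw [jac_over hq hnn hω] at h1
    rcases eq_or_ne (v (jac p f)) ⊤ with h2 | h2
    · rw [h2]
      exact le_top
    · obtain ⟨x, hx⟩ := WithTop.ne_top_iff_exists.1 h2
      rw [← hx] at h1 ⊢
      rw [← WithTop.coe_add, WithTop.coe_le_coe] at h1
      rw [WithTop.coe_le_coe]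
      linarith
  obtain ⟨a, ha1, ha⟩ := exists_disc (fun f hf => hnn f (hq.1 hf)) hb
  refine ⟨a, ha, ?_⟩
  have h2 : ((Finsupp.weight w e : ℕ) : ℤ) = ∑ i, (w i : ℤ) * e i := by
    rw [Finsupp.weight_eq_sum]
    push_cast
    exact Finset.sum_congr rfl fun i _ => by rw [smul_eq_mul]; push_cast; ring
  have h3 : ∑ i, (w i : ℤ) * (e i + 1) = ∑ i, (w i : ℤ) * e i + ∑ i, (w i : ℤ) := by
    rw [← Finset.sum_add_distrib]
    exact Finset.sum_congr rfl fun i _ => by ring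
  rw [h3, ← h2]
  linarith

/-- The key equivalence. -/
theorem lc_iffR {m a e : ℤ} {S t : ℝ} :
    t * (m + S) - (1 - t) * a ≤ t * e + (1 - t) ↔
      t * (((m - e : ℤ) : ℝ) + S) ≤ (1 - t) * ((a + 1 : ℤ) : ℝ) := by
  push_cast
  constructor <;> intro h <;> nlinarith

theorem lcAt_iff {p : SmoothPoint k K d} {η : (Fin r → K) → K} {s : ℕ} {b : Fin s → ℝ}
    {f : Fin s → K} {t : ℝ} {v : AddValuation K (WithTop ℤ)} :
    LcAt p η b f t v ↔ ∀ m a : ℤ, OrdR v η m → Disc p v a →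
      ∀ n : Fin s → ℤ, (∀ j, v (f j) = ((n j : ℤ) : WithTop ℤ)) →
        t * (((m - epsR v η m : ℤ) : ℝ) + ∑ j, b j * n j) ≤ (1 - t) * ((a + 1 : ℤ) : ℝ) := by
  unfold LcAt
  simp only [lc_iffR]

end Pool.Agent.H72Acc
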